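import Pool.Agent.Helper8.PQ.Defs

set_option autoImplicit false

/-!
# Runs with prescribed answers to the sign queries
-/

namespace Pool.Agent.Helper8.PQ

open Finset
open Pool.Agent.Helper22.ETModel Pool.Agent.Helper22.TSModel Pool.Agent.Helper22.EP
open Pool.Agent.Helper23.SP (pre sg)
open Pool.Agent.Helper8.ZT (pev covp LineOK)
open Pool.Agent.Helper21.DS (mt DProc strc cove)

variable {m n k b M N d a D W R K : ℕ} [NeZero b]

open Classical in
/-- The answer, when the answers to the sign queries on the list are given by `x`, and zero tests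
are answered as for generic weights. -/
noncomputable def ansA (h : 3 * m ≤ n) (F : Fin K → MvPolynomial (Fin n × Fin n) ℝ)
    (x : Fin K → SignType) : PolQ n d a → SignType
  | .sign f _ => if hi : ∃ i, F i = f then x (Classical.choose hi) else 0
  | .zero f _ => if ∀ y, pev h f y = 0 then 0 else 1

/-- The state in the run with these answers. -/
noncomputable def fstA (A : Alg n D W R (PolQ n d a) SignType) (h : 3 * m ≤ n)
    (ρ : Fin R → Bool) (F : Fin K → MvPolynomial (Fin n × Fin n) ℝ) (x : Fin K → SignType) :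
    ℕ → Fin W
  | 0 => A.init (flagOf h) ρ
  | t + 1 => A.next (flagOf h) ρ t (fstA A h ρ F x t)
      (ansA h F x (A.ask (flagOf h) ρ t (fstA A h ρ F x t)))

/-- The signs of the polynomials on the list at the point `v`. -/
noncomputable def sgv (h : 3 * m ≤ n) (F : Fin K → MvPolynomial (Fin n × Fin n) ℝ)
    (v : E m → ℝ) (i : Fin K) : SignType :=
  SignType.sign (pev h (F i) v)

/-- Some zero test of the run on the instance with values `v` gives an exceptional answer, that is,
it gives zero, although the polynomial is not zero at all points `T y`. -/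
def badZ (A : Alg n D W R (PolQ n d a) SignType) (h : 3 * m ≤ n)
    (F : Fin K → MvPolynomial (Fin n × Fin n) ℝ) (ρ : Fin R → Bool)
    (T : (E m → ℝ) → E m → ℝ) (v : E m → ℝ) : Prop :=
  ∃ t < D, ∃ f hf, A.ask (flagOf h) ρ t (fstA A h ρ F (sgv h F (T v)) t) = .zero f hf ∧
    (∃ y, pev h f (T y) ≠ 0) ∧ pev h f (T v) = 0

/-- The change in the planted instance. -/
def plt (x y : E m) (v : E m → ℝ) : E m → ℝ := Function.update v x (v y)

/-- Some query on the list is not good. -/
def badF (h : 3 * m ≤ n) (F : Fin K → MvPolynomial (Fin n × Fin n) ℝ) (s L Y Q : ℕ) (Λ : ℝ)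
    (dg : E m → Fin k → Fin b) (lam : Bg m k b M N) : Prop :=
  ∃ i, ¬ GoodS s L Y Q Λ (qp h (F i)) dg lam

open Classical in
/-- The background and digits for which something goes wrong. -/
noncomputable def BadP (A : Alg n D W R (PolQ n d a) SignType) (h : 3 * m ≤ n)
    (F : Fin K → MvPolynomial (Fin n × Fin n) ℝ) (s L Y Q : ℕ) (Λ : ℝ) (ρ : Fin R → Bool) :
    Finset ((E m → Fin k → Fin b) × Bg m k b M N) :=
  univ.filter fun ω => badF h F s L Y Q Λ ω.1 ω.2 ∨ badZ A h F ρ id (vr L Y Q ω.1 ω.2) ∨
    ∃ i j l : Fin m, badZ A h F ρ (plt (0, i, j) (1, j, l)) (vr L Y Q ω.1 ω.2)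

end Pool.Agent.Helper8.PQ
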