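import Pool.Agent.Helper21.DS.Defs
import Pool.Agent.Helper8.ZT.Adapt
import Pool.Agent.Helper50.ZT.Lines

set_option autoImplicit false

/-!
# Exact Triangle with few different polynomial sign queries and any memory

Definitions for project PL.
-/

namespace Pool.Agent.Helper8.PQ

open Finset
open Pool.Agent.Helper22.ETModel Pool.Agent.Helper22.TSModel Pool.Agent.Helper22.EP
open Pool.Agent.Helper23.SP (pre sg)
open Pool.Agent.Helper8.ZT (pev covp LineOK)
open Pool.Agent.Helper21.DS (mt DProc strc cove)

/-! ## The queries -/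

/-- Queries of two kinds: the sign of a real polynomial of total degree at most `d` in all the
weights, and a zero test of a real polynomial of total degree at most `a` in all the weights. -/
inductive PolQ (n d a : ℕ)
  | sign (f : MvPolynomial (Fin n × Fin n) ℝ) (hf : f.totalDegree ≤ d)
  | zero (f : MvPolynomial (Fin n × Fin n) ℝ) (hf : f.totalDegree ≤ a)

open Classical in
/-- The family of these queries. The answer to a zero test is `0` if the polynomial vanishes at the
weights, and `1` otherwise. -/
noncomputable def polFam (n d a : ℕ) : Family n (PolQ n d a) SignType where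
  cells _ := Finset.univ
  ans q I := match q with
    | .sign f _ => SignType.sign (evalP f I)
    | .zero f _ => if evalP f I = 0 then 0 else 1

/-- For fixed flags and random bits all sign queries of `A` come from a list of `K` real
polynomials. -/
def FewSigns {n d a D W R : ℕ} (A : Alg n D W R (PolQ n d a) SignType) (K : ℕ) : Prop :=
  ∀ (fl : Fin n → Fin n → Bool) (ρ : Fin R → Bool),
    ∃ F : Fin K → MvPolynomial (Fin n × Fin n) ℝ,
      ∀ t < D, ∀ v f hf, A.ask fl ρ t v = .sign f hf → ∃ i, F i = f

/-! ## Magnitudes and pivotal elements -/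

section mag

variable {ι : Type} [Fintype ι] [DecidableEq ι]

/-- The degree of the monomial `μ` in the deleted variables. -/
def dgd (δ : ι → Bool) (μ : ι →₀ ℕ) : ℕ := ∑ i, if δ i = true then μ i else 0

/-- The magnitude of the monomial `μ` of the polynomial `p`, if `δ` marks the deleted variables. -/
noncomputable def mag (q Λ : ℝ) (p : MvPolynomial ι ℝ) (δ : ι → Bool) (μ : ι →₀ ℕ) : ℝ :=
  |p.coeff μ| * q ^ dgd δ μ * Λ ^ μ.degree

open Classical in
/-- The pivotal variables: not deleted, and if one deletes them, the maximal magnitude becomes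
larger. -/
noncomputable def piv (q Λ : ℝ) (p : MvPolynomial ι ℝ) (δ : ι → Bool) : Finset ι :=
  univ.filter fun e => δ e = false ∧ ∃ μ ∈ p.support, ∀ μ' ∈ p.support,
    mag q Λ p δ μ' < mag q Λ p (Function.update δ e true) μ

/-- Set all variables outside `S` that are not deleted to zero. -/
def cut (δ : ι → Bool) (S : Finset ι) (v : ι → ℝ) (e : ι) : ℝ :=
  if δ e = true ∨ e ∈ S then v e else 0

end mag

/-! ## The instances -/

section inst

variable {m n k b M N : ℕ} [NeZero b]

/-- The background: deletion marks, masks of the cells, and the noise. -/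
abbrev Bg (m k b M N : ℕ) :=
  (E m → Bool) × (Fin k → (Fin k → Fin b) → Fin M) × (E m → Fin (N + 1))

/-- The parity of an element. -/
def par (e : E m) : ℤ := if e.1 = 0 then 1 else 0

/-- The value of the element `e`. -/
def vl (L Y Q : ℕ) (dg : E m → Fin k → Fin b) (lam : Bg m k b M N) (e : E m) : ℤ :=
  (if lam.1 e = true then (Q : ℤ) * ((lam.2.2 e : ℕ) : ℤ)
    else (L : ℤ) * strc Y lam.2.1 (dg e) + 2 * ((lam.2.2 e : ℕ) : ℤ)) + par e

/-- The real values. -/
def vr (L Y Q : ℕ) (dg : E m → Fin k → Fin b) (lam : Bg m k b M N) (e : E m) : ℝ :=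
  (vl L Y Q dg lam e : ℝ)

/-- The values of the planted instance: `x` gets the value of `y`. -/
def plv (L Y Q : ℕ) (dg : E m → Fin k → Fin b) (lam : Bg m k b M N) (x y : E m) : E m → ℤ :=
  Function.update (vl L Y Q dg lam) x (vl L Y Q dg lam y)

/-- The instance with given values of the elements. -/
def ins (h : 3 * m ≤ n) (v : E m → ℤ) : Inst n := instOf h fun e => sg e * v e

/-- The polynomial `f` as a polynomial in the values of the elements. -/
noncomputable def qp (h : 3 * m ≤ n) (f : MvPolynomial (Fin n × Fin n) ℝ) :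
    MvPolynomial (E m) ℝ :=
  MvPolynomial.aeval (fun e => MvPolynomial.C (sg e : ℝ) * MvPolynomial.X e) (redP h f)

/-- The part of the value of `e` that is revealed, when the elements of `S` are looked at. -/
def rp (L Y : ℕ) (S : Finset (E m)) (dg : E m → Fin k → Fin b) (lam : Bg m k b M N)
    (e : E m) : ℤ :=
  (∑ i : Fin k, if e ∈ mt S dg i.val then
      (L : ℤ) * (Y : ℤ) ^ (k - 1 - i.val) * ((lam.2.1 i (pre (i.val + 1) (dg e)) : ℕ) : ℤ)
    else 0) +
  (if e ∈ mt S dg k then 2 * ((lam.2.2 e : ℕ) : ℤ) + par e else 0)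

/-- The ideal point. -/
def ipt (L Y Q : ℕ) (S : Finset (E m)) (dg : E m → Fin k → Fin b) (lam : Bg m k b M N)
    (e : E m) : ℝ :=
  if lam.1 e = true then vr L Y Q dg lam e else if e ∈ S then (rp L Y S dg lam e : ℝ) else 0

/-- The ideal answer to the query for the sign of `p`, if the elements of `S` are looked at. -/
noncomputable def idl (L Y Q : ℕ) (p : MvPolynomial (E m) ℝ) (S : Finset (E m))
    (dg : E m → Fin k → Fin b) (lam : Bg m k b M N) : SignType :=
  SignType.sign (MvPolynomial.eval (ipt L Y Q S dg lam) p)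

/-- A sign query is good: few elements are looked at, the real answer is the ideal answer, and this
remains so when `x` gets the value of `y`, if `x` is not revealed on level `k`. -/
def GoodS (s L Y Q : ℕ) (Λ : ℝ) (p : MvPolynomial (E m) ℝ) (dg : E m → Fin k → Fin b)
    (lam : Bg m k b M N) : Prop :=
  (piv (Q : ℝ) Λ p lam.1).card ≤ s ∧
  SignType.sign (MvPolynomial.eval (vr L Y Q dg lam) p) =
    idl L Y Q p (piv (Q : ℝ) Λ p lam.1) dg lam ∧
  ∀ x y : E m, lam.1 x = false → lam.1 y = false → x ≠ y → dg y = dg x →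
    x ∉ mt (piv (Q : ℝ) Λ p lam.1) dg k →
    SignType.sign (MvPolynomial.eval
      (Function.update (vr L Y Q dg lam) x (vr L Y Q dg lam y)) p) =
      idl L Y Q p (piv (Q : ℝ) Λ p lam.1) dg lam

/-! ## The process -/

open Classical in
/-- The elements looked at by a query. -/
noncomputable def SQ {d a : ℕ} (h : 3 * m ≤ n) (s Q : ℕ) (Λ : ℝ) (δ : E m → Bool) :
    PolQ n d a → Finset (E m)
  | .sign f _ => if (piv (Q : ℝ) Λ (qp h f) δ).card ≤ s then piv (Q : ℝ) Λ (qp h f) δ else ∅
  | .zero f _ => cove h f

open Classical in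
/-- The ideal answer of a query. -/
noncomputable def iansw {d a : ℕ} (h : 3 * m ≤ n) (s L Y Q : ℕ) (Λ : ℝ)
    (dg : E m → Fin k → Fin b) (lam : Bg m k b M N) : PolQ n d a → SignType
  | .sign f _ => idl L Y Q (qp h f)
      (if (piv (Q : ℝ) Λ (qp h f) lam.1).card ≤ s then piv (Q : ℝ) Λ (qp h f) lam.1 else ∅) dg lam
  | .zero f _ => if ∀ y, pev h f y = 0 then 0 else 1

/-- The process of an algorithm with fixed random bits and background. -/
noncomputable def procP {d a D W R : ℕ} (A : Alg n D W R (PolQ n d a) SignType) (h : 3 * m ≤ n)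
    (s L Y Q : ℕ) (Λ : ℝ) (lam : Bg m k b M N) (ρ : Fin R → Bool) : DProc (E m) k b (Fin W) where
  S t v := SQ h s Q Λ lam.1 (A.ask (flagOf h) ρ t v)
  nx t v dg := A.next (flagOf h) ρ t v (iansw h s L Y Q Λ dg lam (A.ask (flagOf h) ρ t v))

end inst

end Pool.Agent.Helper8.PQ
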