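import Pool.Agent.Helper22.TSModel

set_option autoImplicit false

/-!
# Exact Triangle with weights between `-n ^ c` and `n ^ c`

Definitions only.
-/

namespace Pool.Agent.Helper8.PQ

open Pool.Agent.Helper22.ETModel Pool.Agent.Helper22.TSModel

/-- Valid instances with weights in `[-n ^ c, n ^ c]`: symmetric and loopless. -/
def ValidC {n : ℕ} (c : ℕ) (I : Inst n) : Prop :=
  (∀ i j, I.flag i j = I.flag j i) ∧ (∀ i, I.flag i i = false) ∧
  (∀ i j, I.wt i j = I.wt j i) ∧ (∀ i j, |I.wt i j| ≤ (n : ℤ) ^ c)

open Classical in
/-- The algorithm decides Exact Triangle for weights in `[-n ^ c, n ^ c]` with bounded error: on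
every such valid instance the output is correct with probability at least `2/3` over the random
bits. -/
def DecidesC {n D W R : ℕ} {Q β : Type} (A : Alg n D W R Q β) (F : Family n Q β) (c : ℕ) : Prop :=
  ∀ I : Inst n, ValidC c I →
    2 * 2 ^ R ≤
      3 * (Finset.univ.filter fun ρ : Fin R → Bool => (A.output F I ρ = true ↔ I.Yes)).card

end Pool.Agent.Helper8.PQ
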