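import Pool.Agent.Helper8.PQ.Defs
import Pool.Agent.Helper21.DS.Mt
import Pool.Agent.Helper21.DS.Proc

set_option autoImplicit false

/-!
# The process of an algorithm
-/

namespace Pool.Agent.Helper8.PQ

open Finset
open Pool.Agent.Helper22.ETModel Pool.Agent.Helper22.TSModel Pool.Agent.Helper22.EP
open Pool.Agent.Helper23.SP (pre sg)
open Pool.Agent.Helper8.ZT (pev covp LineOK)
open Pool.Agent.Helper21.DS (mt strc cove)

variable {m n k b M N d a D W R : ℕ} [NeZero b]

private theorem proc_mt_full {El : Type} [DecidableEq El] (S : Finset El)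
    {dg dg' : El → Fin k → Fin b} (h : ∀ e ∈ S, dg e = dg' e) (r : ℕ) :
    mt S dg r = mt S dg' r := by
  ext e
  rw [Pool.Agent.Helper21.DS.mem_mt, Pool.Agent.Helper21.DS.mem_mt]
  constructor
  · rintro ⟨h1, h2⟩
    refine ⟨h1, h2.imp_right ?_⟩
    rintro ⟨e', h3, h4, h5⟩
    exact ⟨e', h3, h4, by rw [← h e h1, ← h e' h3]; exact h5⟩
  · rintro ⟨h1, h2⟩
    refine ⟨h1, h2.imp_right ?_⟩
    rintro ⟨e', h3, h4, h5⟩
    exact ⟨e', h3, h4, by rw [h e h1, h e' h3]; exact h5⟩

private theorem proc_ipt_congr (L Y Q : ℕ) (S : Finset (E m)) (lam : Bg m k b M N)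
    {dg dg' : E m → Fin k → Fin b} (h : ∀ e ∈ S, rp L Y S dg lam e = rp L Y S dg' lam e) :
    ipt L Y Q S dg lam = ipt L Y Q S dg' lam := by
  funext e
  unfold ipt
  by_cases h1 : lam.1 e = true
  · rw [if_pos h1, if_pos h1]
    unfold vr vl
    rw [if_pos h1, if_pos h1]
  · rw [if_neg h1, if_neg h1]
    by_cases h2 : e ∈ S
    · rw [if_pos h2, if_pos h2, h e h2]
    · rw [if_neg h2, if_neg h2]

private theorem proc_ipt_full (L Y Q : ℕ) (S : Finset (E m)) (lam : Bg m k b M N)
    {dg dg' : E m → Fin k → Fin b} (h : ∀ e ∈ S, dg e = dg' e) :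
    ipt L Y Q S dg lam = ipt L Y Q S dg' lam := by
  refine proc_ipt_congr L Y Q S lam fun e he => ?_
  unfold rp
  congr 1
  · refine Finset.sum_congr rfl fun i _ => ?_
    rw [proc_mt_full S h i.val, h e he]
  · rw [proc_mt_full S h k]

private theorem proc_ipt_loc (L Y Q : ℕ) (S : Finset (E m)) (lam : Bg m k b M N) (r : Fin k)
    (dg : E m → Fin k → Fin b) {ξ ξ' : E m → Fin b} (h : ∀ e ∈ mt S dg r.val, ξ e = ξ' e) :
    ipt L Y Q S (Pool.Agent.Helper21.DS.putd r dg ξ) lam =
      ipt L Y Q S (Pool.Agent.Helper21.DS.putd r dg ξ') lam := by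
  refine proc_ipt_congr L Y Q S lam fun e _ => ?_
  unfold rp
  congr 1
  · refine Finset.sum_congr rfl fun i _ => ?_
    by_cases he : e ∈ mt S (Pool.Agent.Helper21.DS.putd r dg ξ) i.val
    · have he' : e ∈ mt S (Pool.Agent.Helper21.DS.putd r dg ξ') i.val := by
        rw [← Pool.Agent.Helper21.DS.mt_putd_congr i.val S dg h]
        exact he
      rw [if_pos he, if_pos he']
      have hp : pre (i.val + 1) (Pool.Agent.Helper21.DS.putd r dg ξ e) =
          pre (i.val + 1) (Pool.Agent.Helper21.DS.putd r dg ξ' e) := by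
        rcases Nat.lt_or_ge i.val r.val with hr | hr
        · rw [Pool.Agent.Helper21.DS.pre_putd_le hr, Pool.Agent.Helper21.DS.pre_putd_le hr]
        · refine Pool.Agent.Helper21.DS.pre_putd_congr (i.val + 1) dg (h e ?_)
          have h1 := Pool.Agent.Helper21.DS.mt_anti S (Pool.Agent.Helper21.DS.putd r dg ξ) hr he
          rwa [Pool.Agent.Helper21.DS.mt_putd_le le_rfl] at h1
      rw [hp]
    · have he' : e ∉ mt S (Pool.Agent.Helper21.DS.putd r dg ξ') i.val := by
        rw [← Pool.Agent.Helper21.DS.mt_putd_congr i.val S dg h]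
        exact he
      rw [if_neg he, if_neg he']
  · rw [Pool.Agent.Helper21.DS.mt_putd_congr k S dg h]

private theorem proc_card (h : 3 * m ≤ n) {s : ℕ} (ha : 2 * a ≤ s) (Q : ℕ) (Λ : ℝ)
    (δ : E m → Bool) (q : PolQ n d a) : (SQ h s Q Λ δ q).card ≤ s := by
  classical
  cases q with
  | sign f hf =>
    show (if (piv (Q : ℝ) Λ (qp h f) δ).card ≤ s then piv (Q : ℝ) Λ (qp h f) δ else ∅).card ≤ s
    split_ifs with h1
    · exact h1
    · simp
  | zero f hf =>
    show (cove h f).card ≤ s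
    unfold Pool.Agent.Helper21.DS.cove
    have h1 := Pool.Agent.Helper50.ZT.card_covp_le h f hf
    refine (card_union_le _ _).trans ?_
    have h2 : ((covp h f).image Prod.fst).card ≤ (covp h f).card := card_image_le
    have h3 : ((covp h f).image Prod.snd).card ≤ (covp h f).card := card_image_le
    omega

private theorem proc_full (h : 3 * m ≤ n) (s L Y Q : ℕ) (Λ : ℝ) (lam : Bg m k b M N)
    {dg dg' : E m → Fin k → Fin b} (q : PolQ n d a)
    (hS : ∀ e ∈ SQ h s Q Λ lam.1 q, dg e = dg' e) :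
    iansw h s L Y Q Λ dg lam q = iansw h s L Y Q Λ dg' lam q := by
  classical
  cases q with
  | sign f hf =>
    exact congrArg (fun x => SignType.sign (MvPolynomial.eval x (qp h f)))
      (proc_ipt_full L Y Q _ lam hS)
  | zero f hf => rfl

private theorem proc_loc (h : 3 * m ≤ n) (s L Y Q : ℕ) (Λ : ℝ) (lam : Bg m k b M N)
    (r : Fin k) (dg : E m → Fin k → Fin b) {ξ ξ' : E m → Fin b} (q : PolQ n d a)
    (hS : ∀ e ∈ mt (SQ h s Q Λ lam.1 q) dg r.val, ξ e = ξ' e) :
    iansw h s L Y Q Λ (Pool.Agent.Helper21.DS.putd r dg ξ) lam q =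
      iansw h s L Y Q Λ (Pool.Agent.Helper21.DS.putd r dg ξ') lam q := by
  classical
  cases q with
  | sign f hf =>
    exact congrArg (fun x => SignType.sign (MvPolynomial.eval x (qp h f)))
      (proc_ipt_loc L Y Q _ lam r dg hS)
  | zero f hf => rfl

/-- As `Pool.Agent.Helper21.DS.procD_ok`. -/
theorem procP_ok (A : Alg n D W R (PolQ n d a) SignType) (h : 3 * m ≤ n) {s : ℕ}
    (ha : 2 * a ≤ s) (L Y Q : ℕ) (Λ : ℝ) (lam : Bg m k b M N) (ρ : Fin R → Bool) :
    (procP (k := k) (b := b) A h s L Y Q Λ lam ρ).OK s := by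
  constructor
  · intro t v
    exact proc_card h ha Q Λ lam.1 (A.ask (flagOf h) ρ t v)
  · intro t v dg dg' hS
    exact congrArg (A.next (flagOf h) ρ t v)
      (proc_full h s L Y Q Λ lam (A.ask (flagOf h) ρ t v) hS)
  · intro t v r dg ξ ξ' hS
    exact congrArg (A.next (flagOf h) ρ t v)
      (proc_loc h s L Y Q Λ lam r dg (A.ask (flagOf h) ρ t v) hS)

end Pool.Agent.Helper8.PQ
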