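import Pool.Agent.Helper8.PQ.Final0

set_option autoImplicit false

/-!
# The sizes of the parameters
-/

namespace Pool.Agent.Helper8.PQ

open Finset

/-- The exponents. -/
lemma size_exp {y : ℝ} (hy : 0 < y) (d k : ℕ) (u v : ℝ) :
    y ^ (2 * d) * (y ^ (2 * d) * (y ^ u * (y ^ v) ^ k)) ^ d * y ^ u =
      y ^ (2 * (d : ℝ) + d * (2 * d + u + v * k) + u) := by
  have e1 : y ^ (2 * d) = y ^ (2 * (d : ℝ)) := by
    rw [← Real.rpow_natCast]
    push_cast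
    rfl
  have e2 : (y ^ v) ^ k = y ^ (v * k) := by
    rw [← Real.rpow_natCast, ← Real.rpow_mul hy.le]
  have e3 : (y ^ (2 * (d : ℝ) + u + v * k)) ^ d = y ^ ((d : ℝ) * (2 * d + u + v * k)) := by
    rw [← Real.rpow_natCast, ← Real.rpow_mul hy.le, mul_comm]
  rw [e1, e2, ← mul_assoc (y ^ (2 * (d : ℝ))) (y ^ u), ← Real.rpow_add hy, ← Real.rpow_add hy,
    e3, ← Real.rpow_add hy, ← Real.rpow_add hy]

/-- The size condition. -/
lemma size_real {n d k N M c A : ℕ} {u v C1 C2 γ : ℝ} (hn : 1 ≤ n) (hC1 : 0 ≤ C1) (hC2 : 0 ≤ C2)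
    (hN : ((2 * N + 2 : ℕ) : ℝ) ≤ C1 * (n : ℝ) ^ u) (hM : (M : ℝ) ≤ C2 * (n : ℝ) ^ v)
    (hC : 2 * (A : ℝ) * (A * (C1 * C2 ^ k)) ^ d * C1 ≤ (n : ℝ) ^ γ)
    (hc : 2 * (d : ℝ) + d * (2 * d + u + v * k) + u + γ ≤ c) :
    2 * A * n ^ (2 * d) * (A * n ^ (2 * d) * ((2 * N + 2) * M ^ k)) ^ d * (N + 1) ≤ n ^ c := by
  have hy : (0 : ℝ) < n := by exact_mod_cast hn
  have hy1 : (1 : ℝ) ≤ n := by exact_mod_cast hn
  set y : ℝ := (n : ℝ) with hydef
  have hN' : ((N : ℝ) + 1) ≤ C1 * y ^ u := by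
    have h1 : ((2 * N + 2 : ℕ) : ℝ) = 2 * N + 2 := by push_cast; ring
    rw [h1] at hN
    have h2 : (0 : ℝ) ≤ N := Nat.cast_nonneg N
    linarith
  have hyu : 0 ≤ y ^ u := by positivity
  have hyv : 0 ≤ y ^ v := by positivity
  have h1 : (2 * (N : ℝ) + 2) * (M : ℝ) ^ k ≤ (C1 * y ^ u) * (C2 * y ^ v) ^ k := by
    apply mul_le_mul _ _ (by positivity) (by positivity)
    · have h1 : ((2 * N + 2 : ℕ) : ℝ) = 2 * N + 2 := by push_cast; ring
      rw [← h1]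
      exact hN
    · exact pow_le_pow_left₀ (Nat.cast_nonneg _) hM _
  have hreal : (2 * (A : ℝ) * y ^ (2 * d) *
      ((A : ℝ) * y ^ (2 * d) * ((2 * (N : ℝ) + 2) * (M : ℝ) ^ k)) ^ d * ((N : ℝ) + 1)) ≤
      y ^ c := by
    calc (2 * (A : ℝ) * y ^ (2 * d) *
          ((A : ℝ) * y ^ (2 * d) * ((2 * (N : ℝ) + 2) * (M : ℝ) ^ k)) ^ d * ((N : ℝ) + 1))
        ≤ 2 * (A : ℝ) * y ^ (2 * d) *
          ((A : ℝ) * y ^ (2 * d) * ((C1 * y ^ u) * (C2 * y ^ v) ^ k)) ^ d * (C1 * y ^ u) := by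
          apply mul_le_mul _ hN' (by positivity) (by positivity)
          apply mul_le_mul_of_nonneg_left _ (by positivity)
          apply pow_le_pow_left₀ (by positivity)
          exact mul_le_mul_of_nonneg_left h1 (by positivity)
      _ = (2 * (A : ℝ) * (A * (C1 * C2 ^ k)) ^ d * C1) *
          (y ^ (2 * d) * (y ^ (2 * d) * (y ^ u * (y ^ v) ^ k)) ^ d * y ^ u) := by
          have e1 : (A : ℝ) * y ^ (2 * d) * ((C1 * y ^ u) * (C2 * y ^ v) ^ k) =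
              (A * (C1 * C2 ^ k)) * (y ^ (2 * d) * (y ^ u * (y ^ v) ^ k)) := by
            rw [mul_pow C2]; ring
          rw [e1, mul_pow (A * (C1 * C2 ^ k) : ℝ)]
          ring
      _ ≤ y ^ γ * (y ^ (2 * d) * (y ^ (2 * d) * (y ^ u * (y ^ v) ^ k)) ^ d * y ^ u) :=
          mul_le_mul_of_nonneg_right hC (by positivity)
      _ = y ^ (γ + (2 * (d : ℝ) + d * (2 * d + u + v * k) + u)) := by
          rw [size_exp hy, ← Real.rpow_add hy]
      _ ≤ y ^ (c : ℝ) := Real.rpow_le_rpow_of_exponent_le hy1 (by linarith)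
      _ = y ^ c := Real.rpow_natCast _ _
  have h2 : ((2 * A * n ^ (2 * d) * (A * n ^ (2 * d) * ((2 * N + 2) * M ^ k)) ^ d * (N + 1) : ℕ) :
      ℝ) ≤ ((n ^ c : ℕ) : ℝ) := by
    push_cast
    exact hreal
  exact_mod_cast h2

/-- Logarithms are small. -/
lemma logb_le {x δ : ℝ} (hx : 0 < x) (hδ : 0 < δ) :
    Real.logb 2 x ≤ 2 / δ * x ^ δ := by
  have h1 : Real.log x ≤ x ^ δ / δ := Real.log_le_rpow_div hx.le hδ
  have h2 : (1 : ℝ) / 2 ≤ Real.log 2 := by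
    have := Real.log_two_gt_d9; linarith
  unfold Real.logb
  rw [div_le_iff₀ (by linarith)]
  calc Real.log x ≤ x ^ δ / δ := h1
    _ = 2 / δ * x ^ δ * (1 / 2) := by ring
    _ ≤ 2 / δ * x ^ δ * Real.log 2 := mul_le_mul_of_nonneg_left h2 (by positivity)

/-- Constants are small. -/
lemma ev_const (C δ : ℝ) (hδ : 0 < δ) :
    ∀ᶠ n : ℕ in Filter.atTop, C ≤ (n : ℝ) ^ δ :=
  ((tendsto_rpow_atTop hδ).comp tendsto_natCast_atTop_atTop).eventually_ge_atTop C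

/-- The least power of two above a real number. -/
lemma exists_pow_two {X : ℝ} (hX : 1 ≤ X) :
    ∃ e : ℕ, X ≤ 2 ^ e ∧ (e : ℝ) ≤ Real.logb 2 X + 1 := by
  have hlog : 0 ≤ Real.logb 2 X := Real.logb_nonneg (by norm_num) hX
  refine ⟨⌈Real.logb 2 X⌉₊, ?_, ?_⟩
  · have h1 := Nat.le_ceil (Real.logb 2 X)
    rw [Real.logb_le_iff_le_rpow (by norm_num) (by linarith), Real.rpow_natCast] at h1
    exact h1
  · exact (Nat.ceil_lt_add_one hlog).le

end Pool.Agent.Helper8.PQ
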