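import Pool.Agent.Helper8.PQ.FinalS
import Pool.Agent.Helper8.PQ.Size

set_option autoImplicit false

/-!
# The asymptotic form, product of time and space
-/

namespace Pool.Agent.Helper8.PQ

open Finset
open Pool.Agent.Helper22.ETModel Pool.Agent.Helper22.TSModel Pool.Agent.Helper22.EP

/-- There is at least one memory state. -/
theorem one_le_W {n D W R : ℕ} {Qr Ar : Type} (A : Alg n D W R Qr Ar) : 1 ≤ W := by
  have h := (A.init (fun _ _ => true) (fun _ => true)).isLt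
  omega

/-- The parameter `t1`. -/
lemma exists_t1 {n K : ℕ} {w δ : ℝ} (hn : 1 ≤ n) (hw : 0 ≤ w) (hδ : 0 < δ)
    (hK : (K : ℝ) ≤ (n : ℝ) ^ w) :
    ∃ t1 : ℕ, 256 * K ≤ 2 ^ t1 ∧ (t1 : ℝ) ≤ (9 + w * (2 / δ)) * (n : ℝ) ^ δ := by
  have hn0 : (0 : ℝ) < n := by exact_mod_cast hn
  have hn1 : (1 : ℝ) ≤ n := by exact_mod_cast hn
  have hnw : 1 ≤ (n : ℝ) ^ w := Real.one_le_rpow hn1 hw
  have hnd : 1 ≤ (n : ℝ) ^ δ := Real.one_le_rpow hn1 hδ.le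
  obtain ⟨e, he, he'⟩ := exists_pow_two (X := 2 ^ 8 * (n : ℝ) ^ w) (by linarith)
  refine ⟨e, ?_, ?_⟩
  · have h1 : (256 : ℝ) * K ≤ 2 ^ e := by
      calc (256 : ℝ) * K ≤ 256 * (n : ℝ) ^ w := mul_le_mul_of_nonneg_left hK (by norm_num)
        _ = 2 ^ 8 * (n : ℝ) ^ w := by norm_num
        _ ≤ 2 ^ e := he
    exact_mod_cast h1
  · have hlog : Real.logb 2 (2 ^ 8 * (n : ℝ) ^ w) = 8 + w * Real.logb 2 n := by
      rw [Real.logb_mul (by positivity) (by positivity), Real.logb_rpow_eq_mul_logb_of_pos hn0,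
        Real.logb_pow, Real.logb_self_eq_one (by norm_num)]
      push_cast
      ring
    rw [hlog] at he'
    have h1 : w * Real.logb 2 n ≤ w * (2 / δ * (n : ℝ) ^ δ) :=
      mul_le_mul_of_nonneg_left (logb_le hn0 hδ) hw
    calc (e : ℝ) ≤ 9 + w * (2 / δ * (n : ℝ) ^ δ) := by linarith
      _ = 9 * 1 + w * (2 / δ) * (n : ℝ) ^ δ := by ring
      _ ≤ 9 * (n : ℝ) ^ δ + w * (2 / δ) * (n : ℝ) ^ δ := by linarith
      _ = (9 + w * (2 / δ)) * (n : ℝ) ^ δ := by ring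

/-- The sizes of `N` and `M`. -/
lemma size_NM {n K d a s k c : ℕ} {w δ γ : ℝ} (hn : 1 ≤ n) (hw : 0 ≤ w) (hδ : 0 < δ)
    (hK : (K : ℝ) ≤ (n : ℝ) ^ w) (ha : (a : ℝ) ≤ (n : ℝ) ^ δ)
    (hs : (s : ℝ) ≤ (n : ℝ) ^ (2 * δ))
    (hC : 2 * (acC d : ℝ) * (acC d * ((512 * d ^ 2 + 16 * (2 * d + 1) + 2) *
      (768 * d + 1) ^ k)) ^ d * (512 * d ^ 2 + 16 * (2 * d + 1) + 2) ≤ (n : ℝ) ^ γ)
    (hc : w * (d * (k + 1) + 1) + 2 * (d + 1) * (d + 4) + δ * (d + 2 * k * d + 1) + γ ≤ c) :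
    2 * acC d * n ^ (2 * d) * (acC d * n ^ (2 * d) *
      ((2 * (256 * K * d ^ 2 + 8 * n ^ 8 * ((2 * d * K + 1) * a)) + 2) *
        (768 * K * s * d + 1) ^ k)) ^ d *
      ((256 * K * d ^ 2 + 8 * n ^ 8 * ((2 * d * K + 1) * a)) + 1) ≤ n ^ c := by
  have hn0 : (0 : ℝ) < n := by exact_mod_cast hn
  have hn1 : (1 : ℝ) ≤ n := by exact_mod_cast hn
  have hnw : 1 ≤ (n : ℝ) ^ w := Real.one_le_rpow hn1 hw
  have hnd : 1 ≤ (n : ℝ) ^ δ := Real.one_le_rpow hn1 hδ.le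
  have hd0 : (0 : ℝ) ≤ d := Nat.cast_nonneg d
  have hK0 : (0 : ℝ) ≤ K := Nat.cast_nonneg K
  have hs0 : (0 : ℝ) ≤ s := Nat.cast_nonneg s
  have ha0 : (0 : ℝ) ≤ a := Nat.cast_nonneg a
  have hu : (n : ℝ) ^ (8 + w + δ) = (n : ℝ) ^ 8 * (n : ℝ) ^ w * (n : ℝ) ^ δ := by
    rw [Real.rpow_add hn0, Real.rpow_add hn0, show (8 : ℝ) = ((8 : ℕ) : ℝ) by norm_num,
      Real.rpow_natCast]
  have hn8 : (1 : ℝ) ≤ (n : ℝ) ^ 8 := one_le_pow₀ hn1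
  have hwu : (n : ℝ) ^ w ≤ (n : ℝ) ^ (8 + w + δ) := by
    apply Real.rpow_le_rpow_of_exponent_le hn1
    linarith
  have h1u : 1 ≤ (n : ℝ) ^ (8 + w + δ) := Real.one_le_rpow hn1 (by linarith)
  refine size_real (u := 8 + w + δ) (v := w + 2 * δ) (γ := γ)
    (C1 := 512 * d ^ 2 + 16 * (2 * d + 1) + 2) (C2 := 768 * d + 1) hn (by positivity)
    (by positivity) ?_ ?_ hC ?_
  · push_cast
    have h1 : (d : ℝ) ^ 2 * K ≤ (d : ℝ) ^ 2 * (n : ℝ) ^ (8 + w + δ) :=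
      mul_le_mul_of_nonneg_left (hK.trans hwu) (by positivity)
    have h2 : 2 * (d : ℝ) * K + 1 ≤ (2 * d + 1) * (n : ℝ) ^ w := by
      have : (2 * d : ℝ) * K ≤ 2 * d * (n : ℝ) ^ w := mul_le_mul_of_nonneg_left hK (by positivity)
      linarith
    have h3 : (n : ℝ) ^ 8 * ((2 * d * K + 1) * a) ≤ (2 * d + 1) * (n : ℝ) ^ (8 + w + δ) := by
      calc (n : ℝ) ^ 8 * ((2 * d * K + 1) * a)
          ≤ (n : ℝ) ^ 8 * (((2 * d + 1) * (n : ℝ) ^ w) * (n : ℝ) ^ δ) := by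
            apply mul_le_mul_of_nonneg_left _ (by positivity)
            exact mul_le_mul h2 ha ha0 (by positivity)
        _ = (2 * d + 1) * (n : ℝ) ^ (8 + w + δ) := by rw [hu]; ring
    calc 2 * (256 * (K : ℝ) * (d : ℝ) ^ 2 + 8 * (n : ℝ) ^ 8 * ((2 * d * K + 1) * a)) + 2
        = 512 * ((d : ℝ) ^ 2 * K) + 16 * ((n : ℝ) ^ 8 * ((2 * d * K + 1) * a)) + 2 * 1 := by ring
      _ ≤ 512 * ((d : ℝ) ^ 2 * (n : ℝ) ^ (8 + w + δ)) +
          16 * ((2 * d + 1) * (n : ℝ) ^ (8 + w + δ)) + 2 * (n : ℝ) ^ (8 + w + δ) := by linarith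
      _ = (512 * (d : ℝ) ^ 2 + 16 * (2 * d + 1) + 2) * (n : ℝ) ^ (8 + w + δ) := by ring
  · push_cast
    have hv : (n : ℝ) ^ (w + 2 * δ) = (n : ℝ) ^ w * (n : ℝ) ^ (2 * δ) := Real.rpow_add hn0 _ _
    have h1v : 1 ≤ (n : ℝ) ^ (w + 2 * δ) := Real.one_le_rpow hn1 (by linarith)
    have h1 : (K : ℝ) * s ≤ (n : ℝ) ^ (w + 2 * δ) := by
      rw [hv]
      exact mul_le_mul hK hs hs0 (by positivity)
    have h2 : (768 * (d : ℝ)) * (K * s) ≤ (768 * (d : ℝ)) * (n : ℝ) ^ (w + 2 * δ) :=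
      mul_le_mul_of_nonneg_left h1 (by positivity)
    linarith
  · have e1 : 2 * (d : ℝ) + d * (2 * d + (8 + w + δ) + (w + 2 * δ) * k) + (8 + w + δ) + γ =
        w * (d * (k + 1) + 1) + 2 * (d + 1) * (d + 4) + δ * (d + 2 * k * d + 1) + γ := by ring
    rw [e1]
    exact hc

/-- The asymptotic form, any memory. -/
theorem asymS (d c : ℕ) (w ε : ℝ) (hd : 1 ≤ d) (hw : 0 ≤ w) (hε : 0 < ε)
    (h : w * (d * (2 / ε + 3) + 1) + 2 * (d + 1) * (d + 4) < c) :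
    ∃ δ : ℝ, 0 < δ ∧ ∃ n₀ : ℕ, ∀ n : ℕ, n₀ ≤ n → ∀ a K D W R : ℕ, (a : ℝ) ≤ (n : ℝ) ^ δ →
      (K : ℝ) ≤ (n : ℝ) ^ w → ∀ A : Alg n D W R (PolQ n d a) SignType,
        DecidesC A (polFam n d a) c → FewSigns A K →
          (n : ℝ) ^ (3 - ε) ≤ D * (1 + Real.logb 2 W) := by
  obtain ⟨k, hkdef⟩ : ∃ k : ℕ, k = ⌊1 / ε⌋₊ + 1 := ⟨_, rfl⟩
  have hk1 : 1 ≤ k := by omega
  have hk0 : (0 : ℝ) < k := by exact_mod_cast hk1
  have hd0 : (1 : ℝ) ≤ d := by exact_mod_cast hd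
  have hkle : (k : ℝ) ≤ 1 / ε + 1 := by
    rw [hkdef]
    push_cast
    have := Nat.floor_le (a := 1 / ε) (by positivity)
    linarith
  have hkgt : 1 / ε < k := by
    rw [hkdef]
    push_cast
    exact Nat.lt_floor_add_one _
  have hg : 0 < ε - 1 / k := by
    have h1 : 1 / (k : ℝ) < ε := by
      rw [div_lt_iff₀ hk0]
      rw [div_lt_iff₀ hε] at hkgt
      linarith
    linarith
  obtain ⟨g, hgdef⟩ : ∃ g : ℝ, g = ε - 1 / k := ⟨_, rfl⟩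
  rw [← hgdef] at hg
  have hwk : w * (d * (2 * k + 1) + 1) ≤ w * (d * (2 / ε + 3) + 1) := by
    apply mul_le_mul_of_nonneg_left _ hw
    have h1 : (2 : ℝ) * k + 1 ≤ 2 / ε + 3 := by
      have : 2 / ε = 2 * (1 / ε) := by ring
      rw [this]
      linarith
    have h2 : (d : ℝ) * (2 * k + 1) ≤ d * (2 / ε + 3) := mul_le_mul_of_nonneg_left h1 (by linarith)
    linarith
  obtain ⟨γ, hγdef⟩ : ∃ γ : ℝ, γ = c - (w * (d * (2 * k + 1) + 1) + 2 * (d + 1) * (d + 4)) :=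
    ⟨_, rfl⟩
  have hγ : 0 < γ := by linarith
  obtain ⟨B, hB⟩ : ∃ B : ℝ, B = (d : ℝ) + 4 * k * d + 1 := ⟨_, rfl⟩
  have hB0 : 0 < B := by rw [hB]; positivity
  -- the choice of `δ`
  obtain ⟨δ, hδ0, hδ1, hδ2⟩ : ∃ δ : ℝ, 0 < δ ∧ 6 * δ ≤ g ∧ δ * B ≤ γ / 2 := by
    refine ⟨min (g / 6) (γ / 2 / B), lt_min (by positivity) (by positivity), ?_, ?_⟩
    · have := min_le_left (g / 6) (γ / 2 / B)
      linarith
    · calc min (g / 6) (γ / 2 / B) * B ≤ (γ / 2 / B) * B :=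
            mul_le_mul_of_nonneg_right (min_le_right _ _) hB0.le
        _ = γ / 2 := div_mul_cancel₀ _ hB0.ne'
  refine ⟨δ, hδ0, ?_⟩
  obtain ⟨η, hηdef⟩ : ∃ η : ℝ, η = δ / 2 / (2 * k) := ⟨_, rfl⟩
  have hη : 0 < η := by rw [hηdef]; positivity
  have hev := ((ev_const (2 * d * (9 + w * (2 / δ)) + 3) δ hδ0).and
    ((ev_const (2 * (acC d : ℝ) * (acC d * ((512 * d ^ 2 + 16 * (2 * d + 1) + 2) *
      (768 * d + 1) ^ (2 * k))) ^ d * (512 * d ^ 2 + 16 * (2 * d + 1) + 2)) (γ / 2)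
        (by positivity)).and
      ((ev_const (9 + 4 * (2 / δ)) δ hδ0).and
        ((ev_const ((2 ^ 15 * (2 / η)) ^ (2 * k)) (δ / 2) (by positivity)).and
          (Filter.eventually_ge_atTop (12 * k))))))
  obtain ⟨n₀, hn₀⟩ := Filter.eventually_atTop.1 hev
  refine ⟨n₀, fun n hn a K D W R ha hK A hA hAK => ?_⟩
  obtain ⟨he1, he2, he3, he4, hn12⟩ := hn₀ n hn
  have hnn : 1 ≤ n := by omega
  have hn1 : (1 : ℝ) ≤ n := by exact_mod_cast hnn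
  have hn0 : (0 : ℝ) < n := by linarith
  have hnd : 1 ≤ (n : ℝ) ^ δ := Real.one_le_rpow hn1 hδ0.le
  have hW : 1 ≤ W := one_le_W A
  have hW1 : (1 : ℝ) ≤ W := by exact_mod_cast hW
  have hL0 : 0 ≤ Real.logb 2 W := Real.logb_nonneg (by norm_num) hW1
  obtain ⟨t1, ht1, ht1'⟩ := exists_t1 hnn hw hδ0 hK
  -- the parameter `s`
  obtain ⟨s, hsdef⟩ : ∃ s : ℕ, s = 2 * d * t1 + 2 * a + 1 := ⟨_, rfl⟩
  have hsle : (s : ℝ) ≤ (n : ℝ) ^ (2 * δ) := by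
    have h1 : (2 * d : ℝ) * t1 ≤ 2 * d * ((9 + w * (2 / δ)) * (n : ℝ) ^ δ) :=
      mul_le_mul_of_nonneg_left ht1' (by linarith)
    calc (s : ℝ) = 2 * d * t1 + 2 * a + 1 := by rw [hsdef]; push_cast; ring
      _ ≤ 2 * d * ((9 + w * (2 / δ)) * (n : ℝ) ^ δ) + 2 * (n : ℝ) ^ δ + (n : ℝ) ^ δ := by linarith
      _ = (2 * d * (9 + w * (2 / δ)) + 3) * (n : ℝ) ^ δ := by ring
      _ ≤ (n : ℝ) ^ δ * (n : ℝ) ^ δ := mul_le_mul_of_nonneg_right he1 (by positivity)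
      _ = (n : ℝ) ^ (2 * δ) := by rw [← Real.rpow_add hn0]; ring_nf
  -- the parameter `x`
  have hX1 : (1 : ℝ) ≤ 2 ^ 7 * (n : ℝ) ^ 4 * W := by
    have h1 : (1 : ℝ) ≤ (n : ℝ) ^ 4 := one_le_pow₀ hn1
    have h2 : (1 : ℝ) ≤ (n : ℝ) ^ 4 * W := one_le_mul_of_one_le_of_one_le h1 hW1
    linarith
  obtain ⟨e, he, he'⟩ := exists_pow_two hX1
  have hlogX : Real.logb 2 (2 ^ 7 * (n : ℝ) ^ 4 * W) =
      7 + 4 * Real.logb 2 n + Real.logb 2 W := by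
    rw [Real.logb_mul (by positivity) (by positivity), Real.logb_mul (by positivity) (by positivity),
      Real.logb_pow, Real.logb_pow, Real.logb_self_eq_one (by norm_num)]
    push_cast
    ring
  rw [hlogX] at he'
  obtain ⟨x, hxdef⟩ : ∃ x : ℕ, x = s + e := ⟨_, rfl⟩
  have hxle : (x : ℝ) ≤ (n : ℝ) ^ (3 * δ) * (1 + Real.logb 2 W) := by
    have h1 : Real.logb 2 n ≤ 2 / δ * (n : ℝ) ^ δ := logb_le hn0 hδ0
    have h2 : (n : ℝ) ^ δ ≤ (n : ℝ) ^ (2 * δ) :=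
      Real.rpow_le_rpow_of_exponent_le hn1 (by linarith)
    have h3 : 1 ≤ (n : ℝ) ^ (2 * δ) := hnd.trans h2
    have h4 : (0 : ℝ) ≤ 2 / δ := by positivity
    have h5 : 4 * (2 / δ * (n : ℝ) ^ δ) ≤ 4 * (2 / δ) * (n : ℝ) ^ (2 * δ) := by
      calc 4 * (2 / δ * (n : ℝ) ^ δ) = 4 * (2 / δ) * (n : ℝ) ^ δ := by ring
        _ ≤ 4 * (2 / δ) * (n : ℝ) ^ (2 * δ) := mul_le_mul_of_nonneg_left h2 (by positivity)
    have h6 : (x : ℝ) ≤ (9 + 4 * (2 / δ)) * (n : ℝ) ^ (2 * δ) + Real.logb 2 W := by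
      rw [hxdef]
      push_cast
      linarith
    have h7 : (9 + 4 * (2 / δ)) * (n : ℝ) ^ (2 * δ) ≤ (n : ℝ) ^ (3 * δ) := by
      calc (9 + 4 * (2 / δ)) * (n : ℝ) ^ (2 * δ) ≤ (n : ℝ) ^ δ * (n : ℝ) ^ (2 * δ) :=
            mul_le_mul_of_nonneg_right he3 (by positivity)
        _ = (n : ℝ) ^ (3 * δ) := by rw [← Real.rpow_add hn0]; ring_nf
    have h8 : 1 ≤ (n : ℝ) ^ (3 * δ) := Real.one_le_rpow hn1 (by linarith)
    have h9 : Real.logb 2 W ≤ (n : ℝ) ^ (3 * δ) * Real.logb 2 W := le_mul_of_one_le_left hL0 h8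
    calc (x : ℝ) ≤ (n : ℝ) ^ (3 * δ) + (n : ℝ) ^ (3 * δ) * Real.logb 2 W := by linarith
      _ = (n : ℝ) ^ (3 * δ) * (1 + Real.logb 2 W) := by ring
  have hx : 2 ^ 7 * n ^ 4 * W ≤ 2 ^ x := by
    have h1 : (2 : ℝ) ^ 7 * (n : ℝ) ^ 4 * W ≤ 2 ^ x :=
      he.trans (pow_le_pow_right₀ (by norm_num) (by omega))
    exact_mod_cast h1
  -- the factor with the logarithm
  have hlf : (2 ^ 15 * Real.logb 2 n) ^ (2 * k) ≤ (n : ℝ) ^ δ := by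
    have h1 : Real.logb 2 n ≤ 2 / η * (n : ℝ) ^ η := logb_le hn0 hη
    have h0 : 0 ≤ Real.logb 2 n := Real.logb_nonneg (by norm_num) hn1
    calc (2 ^ 15 * Real.logb 2 n) ^ (2 * k) ≤ (2 ^ 15 * (2 / η * (n : ℝ) ^ η)) ^ (2 * k) := by
          apply pow_le_pow_left₀ (by positivity)
          exact mul_le_mul_of_nonneg_left h1 (by norm_num)
      _ = (2 ^ 15 * (2 / η)) ^ (2 * k) * ((n : ℝ) ^ η) ^ (2 * k) := by
          rw [← mul_assoc, mul_pow]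
      _ = (2 ^ 15 * (2 / η)) ^ (2 * k) * (n : ℝ) ^ (δ / 2) := by
          congr 1
          rw [← Real.rpow_natCast, ← Real.rpow_mul hn0.le]
          congr 1
          rw [hηdef]
          push_cast
          exact div_mul_cancel₀ _ (by positivity)
      _ ≤ (n : ℝ) ^ (δ / 2) * (n : ℝ) ^ (δ / 2) := mul_le_mul_of_nonneg_right he4 (by positivity)
      _ = (n : ℝ) ^ δ := by rw [← Real.rpow_add hn0]; ring_nf
  have hsz := size_NM (k := 2 * k) (c := c) (s := s) (γ := γ / 2) hnn hw hδ0 hK ha hsle (d := d)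
    (by
      push_cast at he2 ⊢
      exact he2)
    (by
      have e1 : δ * ((d : ℝ) + 2 * ((2 * k : ℕ) : ℝ) * d + 1) = δ * B := by
        rw [hB]; push_cast; ring
      rw [e1]
      push_cast
      linarith)
  have hq := quantS (M := 768 * K * s * d + 1)
    (N := 256 * K * d ^ 2 + 8 * n ^ 8 * ((2 * d * K + 1) * a)) (x := x) (t1 := t1)
    hk1 hn12 (by omega : 1 ≤ s) (by omega) (by omega) hd (by omega) ht1
    (Nat.le_add_right _ _) (Nat.le_add_left _ _) (Nat.le_succ _) (by omega) hsz hx A hA hAK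
  -- conclusion
  have hD0 : (0 : ℝ) ≤ D := Nat.cast_nonneg D
  have hs0 : (0 : ℝ) ≤ s := Nat.cast_nonneg s
  have hx0 : (0 : ℝ) ≤ x := Nat.cast_nonneg x
  have hlf0 : 0 ≤ (2 ^ 15 * Real.logb 2 n) ^ (2 * k) := by
    have h0 : 0 ≤ Real.logb 2 n := Real.logb_nonneg (by norm_num) hn1
    positivity
  have hfin : (n : ℝ) ^ g * (n : ℝ) ^ (3 - ε) ≤ (n : ℝ) ^ g * (D * (1 + Real.logb 2 W)) := by
    calc (n : ℝ) ^ g * (n : ℝ) ^ (3 - ε) = (n : ℝ) ^ (3 - 1 / (k : ℝ)) := by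
          rw [← Real.rpow_add hn0, hgdef]
          ring_nf
      _ ≤ (2 ^ 15 * Real.logb 2 n) ^ (2 * k) * s * x * D := hq
      _ ≤ (n : ℝ) ^ δ * (n : ℝ) ^ (2 * δ) * ((n : ℝ) ^ (3 * δ) * (1 + Real.logb 2 W)) * D := by
          apply mul_le_mul_of_nonneg_right _ hD0
          apply mul_le_mul _ hxle hx0 (by positivity)
          exact mul_le_mul hlf hsle hs0 (by positivity)
      _ = (n : ℝ) ^ (6 * δ) * (D * (1 + Real.logb 2 W)) := by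
          have e1 : (n : ℝ) ^ (6 * δ) = (n : ℝ) ^ δ * (n : ℝ) ^ (2 * δ) * (n : ℝ) ^ (3 * δ) := by
            rw [← Real.rpow_add hn0, ← Real.rpow_add hn0]
            ring_nf
          rw [e1]
          ring
      _ ≤ (n : ℝ) ^ g * (D * (1 + Real.logb 2 W)) := by
          apply mul_le_mul_of_nonneg_right _ (by positivity)
          exact Real.rpow_le_rpow_of_exponent_le hn1 hδ1
  exact le_of_mul_le_mul_left hfin (by positivity)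

end Pool.Agent.Helper8.PQ
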