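import Pool.Agent.Helper8.PQ.Defs
import Pool.Agent.Helper8.PQ.Model
import Pool.Agent.Helper21.DS.InstA
import Pool.Agent.Helper21.DS.InstB
import Pool.Agent.Helper21.DS.InstC

set_option autoImplicit false

/-!
# The instances
-/

namespace Pool.Agent.Helper8.PQ

open Finset
open Pool.Agent.Helper22.ETModel Pool.Agent.Helper22.TSModel Pool.Agent.Helper22.EP
open Pool.Agent.Helper23.SP (pre sg)
open Pool.Agent.Helper8.ZT (pev covp LineOK)
open Pool.Agent.Helper21.DS (mt strc)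

variable {m n k b M N c : ℕ} [NeZero b]

theorem eval_qp (h : 3 * m ≤ n) (f : MvPolynomial (Fin n × Fin n) ℝ) (y : E m → ℝ) :
    MvPolynomial.eval y (qp h f) = pev h f y := by
  unfold qp pev
  rw [eval_aeval]
  congr 2
  funext e
  rw [map_mul, MvPolynomial.eval_C, MvPolynomial.eval_X]

theorem totalDegree_qp (h : 3 * m ≤ n) (f : MvPolynomial (Fin n × Fin n) ℝ) :
    (qp h f).totalDegree ≤ f.totalDegree := by
  unfold qp
  refine (totalDegree_aeval_le _ (fun e => ?_) _).trans (totalDegree_redP h f)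
  refine (MvPolynomial.totalDegree_mul _ _).trans ?_
  rw [MvPolynomial.totalDegree_X, MvPolynomial.totalDegree_C]

theorem evalP_ins (h : 3 * m ≤ n) (f : MvPolynomial (Fin n × Fin n) ℝ) (v : E m → ℤ) :
    evalP f (ins h v) = pev h f (fun e => (v e : ℝ)) := by
  unfold ins
  rw [evalP_instOf]
  unfold pev
  congr 2
  funext e
  push_cast
  rfl

/-- A number with digits at most `Y - 1`. -/
private lemma inst_geo (Y : ℤ) (hY : 0 ≤ Y) : ∀ (k : ℕ) (x : Fin k → ℤ),
    (∀ i, 0 ≤ x i ∧ x i ≤ Y - 1) →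
    ∑ i : Fin k, Y ^ (k - 1 - i.val) * x i ≤ Y ^ k - 1 := by
  intro k
  induction k with
  | zero => intro x _; simp
  | succ k ih =>
    intro x hx
    rw [Fin.sum_univ_succ]
    have h1 : ∀ i : Fin k, Y ^ (k + 1 - 1 - (Fin.succ i).val) * x i.succ =
        Y ^ (k - 1 - i.val) * x i.succ := by
      intro i
      have : k + 1 - 1 - (Fin.succ i).val = k - 1 - i.val := by
        rw [Fin.val_succ]
        omega
      rw [this]
    have h2 : k + 1 - 1 - (0 : Fin (k + 1)).val = k := by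
      rw [Fin.val_zero]
      omega
    rw [sum_congr rfl fun i _ => h1 i, h2]
    have h4 := ih (fun i => x i.succ) fun i => hx i.succ
    have h5 := pow_nonneg hY k
    have h7 : Y ^ k * x 0 ≤ Y ^ k * (Y - 1) := mul_le_mul_of_nonneg_left (hx 0).2 h5
    calc Y ^ k * x 0 + ∑ i : Fin k, Y ^ (k - 1 - i.val) * x i.succ
        ≤ Y ^ k * (Y - 1) + (Y ^ k - 1) := add_le_add h7 h4
      _ = Y ^ (k + 1) - 1 := by rw [pow_succ]; ring

private lemma inst_strc_nonneg (Y : ℕ) (u : Fin k → (Fin k → Fin b) → Fin M)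
    (x : Fin k → Fin b) : 0 ≤ strc Y u x := by
  unfold strc
  exact sum_nonneg fun i _ => by positivity

private lemma inst_strc_le (Y : ℕ) (hY : M ≤ Y) (u : Fin k → (Fin k → Fin b) → Fin M)
    (x : Fin k → Fin b) : strc Y u x ≤ (Y : ℤ) ^ k - 1 := by
  unfold strc
  refine inst_geo (Y : ℤ) (by positivity) k
    (fun i => ((u i (pre (i.val + 1) x) : ℕ) : ℤ)) fun i => ⟨by positivity, ?_⟩
  have h1 : (u i (pre (i.val + 1) x) : ℕ) < M := (u i _).isLt
  have h2 : (u i (pre (i.val + 1) x) : ℕ) + 1 ≤ Y := by omega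
  have h3 : ((u i (pre (i.val + 1) x) : ℕ) : ℤ) + 1 ≤ (Y : ℤ) := by exact_mod_cast h2
  linarith

private lemma inst_par (e : E m) : 0 ≤ par e ∧ par e ≤ 1 := by
  unfold par
  split_ifs <;> norm_num

/-- Values of elements that are not deleted. -/
theorem vl_nonneg (L Y Q : ℕ) (dg : E m → Fin k → Fin b) (lam : Bg m k b M N) (e : E m) :
    0 ≤ vl L Y Q dg lam e := by
  have hp := (inst_par e).1
  unfold vl
  split_ifs
  · positivity
  · have := inst_strc_nonneg Y lam.2.1 (dg e)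
    positivity

theorem vl_le (L Y Q : ℕ) (hL : 2 * N + 2 ≤ L) (hY : M ≤ Y) (dg : E m → Fin k → Fin b)
    (lam : Bg m k b M N) (e : E m) (he : lam.1 e = false) :
    vl L Y Q dg lam e ≤ (L : ℤ) * (Y : ℤ) ^ k := by
  have hp := (inst_par e).2
  have h1 := inst_strc_le Y hY lam.2.1 (dg e)
  have hN : (((lam.2.2 e : ℕ) : ℤ)) ≤ (N : ℤ) := by
    have := (lam.2.2 e).isLt
    exact_mod_cast (by omega : (lam.2.2 e : ℕ) ≤ N)
  have hL' : 2 * (N : ℤ) + 2 ≤ (L : ℤ) := by exact_mod_cast hL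
  have hL0 : (0 : ℤ) ≤ (L : ℤ) := by positivity
  have h2 := mul_le_mul_of_nonneg_left h1 hL0
  unfold vl
  rw [if_neg (by rw [he]; decide)]
  linarith

theorem vl_le_del (L Y Q : ℕ) (hQ : 1 ≤ Q) (dg : E m → Fin k → Fin b)
    (lam : Bg m k b M N) (e : E m) (he : lam.1 e = true) :
    vl L Y Q dg lam e ≤ (Q : ℤ) * ((N : ℤ) + 1) := by
  have hp := (inst_par e).2
  have hN : (((lam.2.2 e : ℕ) : ℤ)) ≤ (N : ℤ) := by
    have := (lam.2.2 e).isLt
    exact_mod_cast (by omega : (lam.2.2 e : ℕ) ≤ N)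
  have hQ' : (1 : ℤ) ≤ (Q : ℤ) := by exact_mod_cast hQ
  have hQ0 : (0 : ℤ) ≤ (Q : ℤ) := by positivity
  have h2 := mul_le_mul_of_nonneg_left hN hQ0
  unfold vl
  rw [if_pos he]
  linarith

private lemma inst_abs_le {L Y Q : ℕ} (hL : 2 * N + 2 ≤ L) (hY : M ≤ Y) (hQ1 : 1 ≤ Q)
    (hLQ : L * Y ^ k ≤ Q) (hQn : Q * (N + 1) ≤ n ^ c)
    (dg : E m → Fin k → Fin b) (lam : Bg m k b M N) (e : E m) :
    |vl L Y Q dg lam e| ≤ (n : ℤ) ^ c := by
  have hQn' : (Q : ℤ) * ((N : ℤ) + 1) ≤ (n : ℤ) ^ c := by exact_mod_cast hQn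
  rw [abs_of_nonneg (vl_nonneg L Y Q dg lam e)]
  rcases Bool.eq_false_or_eq_true (lam.1 e) with he | he
  · exact (vl_le_del L Y Q hQ1 dg lam e he).trans hQn'
  · refine (vl_le L Y Q hL hY dg lam e he).trans (le_trans ?_ hQn')
    have h1 : L * Y ^ k ≤ Q * (N + 1) := hLQ.trans (Nat.le_mul_of_pos_right _ (by omega))
    exact_mod_cast h1

omit [NeZero b] in
/-- See `Pool.Agent.Helper22.EP.instOf_valid`. -/
private lemma instOf_validC (h : 3 * m ≤ n) (w : E m → ℤ) (hw : ∀ e, |w e| ≤ (n : ℤ) ^ c) :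
    ValidC c (instOf h w) := by
  refine ⟨flagOf_symm h, ?_, wtOf_symm h w, ?_⟩
  · intro i
    by_contra hcon
    have hcon' : flagOf h i i = true := by
      rw [Bool.not_eq_false] at hcon
      exact hcon
    obtain ⟨k, k', a, a', hk, h1, h2⟩ := flagOf_true h hcon'
    exact hk (vert_inj h (h1.symm.trans h2)).1
  · intro i j
    show |wtOf h w i j| ≤ _
    by_cases hf : flagOf h i j = true
    · unfold flagOf at hf
      rw [decide_eq_true_iff] at hf
      obtain ⟨e, he | he⟩ := hf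
      · have h1 : i = (enc h e).1 := by rw [he]
        have h2 : j = (enc h e).2 := by rw [he]
        rw [h1, h2, wtOf_enc]; exact hw e
      · have h1 : j = (enc h e).1 := by rw [he]
        have h2 : i = (enc h e).2 := by rw [he]
        rw [h1, h2, wtOf_symm, wtOf_enc]; exact hw e
    · rw [wtOf_flag_false h w i j (by simpa using hf)]
      simp

omit [NeZero b] in
private lemma inst_ins_valid (h : 3 * m ≤ n) (v : E m → ℤ) (hv : ∀ e, |v e| ≤ (n : ℤ) ^ c) :
    ValidC c (ins h v) := by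
  refine instOf_validC h _ fun e => ?_
  have hsg : |sg e| ≤ 1 := by
    unfold sg
    split_ifs <;> simp
  calc |sg e * v e| = |sg e| * |v e| := abs_mul _ _
    _ ≤ 1 * |v e| := mul_le_mul_of_nonneg_right hsg (abs_nonneg _)
    _ = |v e| := one_mul _
    _ ≤ (n : ℤ) ^ c := hv e

/-- All instances are valid. -/
theorem ins_valid {L Y Q : ℕ} (hm : 1 ≤ m) (hL : 2 * N + 2 ≤ L) (hY : M ≤ Y) (hQ1 : 1 ≤ Q)
    (hLQ : L * Y ^ k ≤ Q) (hQn : Q * (N + 1) ≤ n ^ c) (h : 3 * m ≤ n)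
    (dg : E m → Fin k → Fin b) (lam : Bg m k b M N) :
    ValidC c (ins h (vl L Y Q dg lam)) := by
  exact inst_ins_valid h _ (inst_abs_le hL hY hQ1 hLQ hQn dg lam)

theorem plant_valid {L Y Q : ℕ} (hm : 1 ≤ m) (hL : 2 * N + 2 ≤ L) (hY : M ≤ Y) (hQ1 : 1 ≤ Q)
    (hLQ : L * Y ^ k ≤ Q) (hQn : Q * (N + 1) ≤ n ^ c) (h : 3 * m ≤ n)
    (dg : E m → Fin k → Fin b) (lam : Bg m k b M N) (x y : E m) :
    ValidC c (ins h (plv L Y Q dg lam x y)) := by
  refine inst_ins_valid h _ fun e => ?_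
  unfold plv
  by_cases he : e = x
  · rw [he, Function.update_self]
    exact inst_abs_le hL hY hQ1 hLQ hQn dg lam y
  · rw [Function.update_of_ne he]
    exact inst_abs_le hL hY hQ1 hLQ hQn dg lam e

private lemma inst_even {L Y Q : ℕ} (hL : Even L) (hQ : Even Q)
    (dg : E m → Fin k → Fin b) (lam : Bg m k b M N) (e : E m) :
    ∃ z : ℤ, vl L Y Q dg lam e = 2 * z + par e := by
  obtain ⟨l, hl⟩ := hL
  obtain ⟨q, hq⟩ := hQ
  unfold vl
  split_ifs
  · refine ⟨q * ((lam.2.2 e : ℕ) : ℤ), ?_⟩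
    rw [hq]
    push_cast
    ring
  · refine ⟨l * strc Y lam.2.1 (dg e) + ((lam.2.2 e : ℕ) : ℤ), ?_⟩
    rw [hl]
    push_cast
    ring

/-- The basic instance is a no-instance (parity). -/
theorem base_no (h : 3 * m ≤ n) {L Y Q : ℕ} (hL : Even L) (hQ : Even Q)
    (dg : E m → Fin k → Fin b) (lam : Bg m k b M N) : ¬ (ins h (vl L Y Q dg lam)).Yes := by
  unfold ins
  rw [instOf_yes]
  rintro ⟨T, hT⟩
  rw [Fin.sum_univ_three] at hT
  obtain ⟨z0, h0⟩ := inst_even (Y := Y) hL hQ dg lam (tk T 0)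
  obtain ⟨z1, h1⟩ := inst_even (Y := Y) hL hQ dg lam (tk T 1)
  have s0 : sg (tk T 0) = 1 := rfl
  have s1 : sg (tk T 1) = -1 := rfl
  have s2 : sg (tk T 2) = 0 := rfl
  have p0 : par (tk T 0) = 1 := rfl
  have p1 : par (tk T 1) = 0 := rfl
  simp only [s0, s1, s2, h0, h1, p0, p1] at hT
  omega

/-- The planted instance is a yes-instance. -/
theorem plant_yes (h : 3 * m ≤ n) (L Y Q : ℕ) (dg : E m → Fin k → Fin b)
    (lam : Bg m k b M N) (i j l : Fin m) :
    (ins h (plv L Y Q dg lam (0, i, j) (1, j, l))).Yes := by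
  unfold ins
  rw [instOf_yes]
  refine ⟨![i, j, l], ?_⟩
  rw [Fin.sum_univ_three]
  have e0 : tk ![i, j, l] 0 = ((0, i, j) : E m) := rfl
  have e1 : tk ![i, j, l] 1 = ((1, j, l) : E m) := rfl
  have e2 : tk ![i, j, l] 2 = ((2, l, i) : E m) := rfl
  rw [e0, e1, e2]
  have hne : ((1, j, l) : E m) ≠ (0, i, j) := by
    intro h1
    have := congrArg Prod.fst h1
    simp at this
  have s0 : sg ((0, i, j) : E m) = 1 := rfl
  have s1 : sg ((1, j, l) : E m) = -1 := rfl
  have s2 : sg ((2, l, i) : E m) = 0 := rfl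
  have v0 : plv L Y Q dg lam (0, i, j) (1, j, l) (0, i, j) = vl L Y Q dg lam (1, j, l) := by
    unfold plv
    rw [Function.update_self]
  have v1 : plv L Y Q dg lam (0, i, j) (1, j, l) (1, j, l) = vl L Y Q dg lam (1, j, l) := by
    unfold plv
    rw [Function.update_of_ne hne]
  rw [s0, s1, s2, v0, v1]
  ring

end Pool.Agent.Helper8.PQ
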