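import Pool.Agent.Helper8.PQ.RunDefs
import Pool.Agent.Helper8.PQ.Inst
import Pool.Agent.Helper21.DS.Mt

set_option autoImplicit false

/-!
# Real runs and ideal runs
-/

namespace Pool.Agent.Helper8.PQ

open Finset
open Pool.Agent.Helper22.ETModel Pool.Agent.Helper22.TSModel Pool.Agent.Helper22.EP
open Pool.Agent.Helper23.SP (pre sg)
open Pool.Agent.Helper8.ZT (pev covp LineOK)
open Pool.Agent.Helper21.DS (mt DProc strc cove mem_rev st_succ)

variable {m n k b M N d a D W R K : ℕ} [NeZero b]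

lemma ans_sign (h : 3 * m ≤ n) (f : MvPolynomial (Fin n × Fin n) ℝ) (hf : f.totalDegree ≤ d)
    (v : E m → ℤ) :
    (polFam n d a).ans (.sign f hf) (ins h v) = SignType.sign (pev h f (fun e => (v e : ℝ))) := by
  show SignType.sign (evalP f (ins h v)) = _
  rw [evalP_ins]

open Classical in
lemma ans_zero (h : 3 * m ≤ n) (f : MvPolynomial (Fin n × Fin n) ℝ) (hf : f.totalDegree ≤ a)
    (v : E m → ℤ) :
    (polFam n d a).ans (.zero f hf) (ins h v) =
      if pev h f (fun e => (v e : ℝ)) = 0 then 0 else 1 := by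
  show (if evalP f (ins h v) = 0 then (0 : SignType) else 1) = _
  rw [evalP_ins]

lemma ansA_sign (h : 3 * m ≤ n) (F : Fin K → MvPolynomial (Fin n × Fin n) ℝ)
    (v : E m → ℤ) (f : MvPolynomial (Fin n × Fin n) ℝ) (hf : f.totalDegree ≤ d)
    (hi : ∃ i, F i = f) :
    (polFam n d a).ans (.sign f hf) (ins h v) =
      ansA (d := d) (a := a) h F (sgv h F (fun e => (v e : ℝ))) (.sign f hf) := by
  classical
  rw [ans_sign]
  unfold ansA
  simp only
  rw [dif_pos hi]
  unfold sgv
  rw [Classical.choose_spec hi]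

/-- One step, in general form: the real answer and the answer from the sign vector agree with the
ideal answer. -/
lemma run_step {s L Y Q : ℕ} {Λ : ℝ} (h : 3 * m ≤ n)
    (A : Alg n D W R (PolQ n d a) SignType) (ρ : Fin R → Bool)
    (F : Fin K → MvPolynomial (Fin n × Fin n) ℝ)
    (hF : ∀ t < D, ∀ v f hf, A.ask (flagOf h) ρ t v = .sign f hf → ∃ i, F i = f)
    (dg : E m → Fin k → Fin b) (lam : Bg m k b M N) (v : E m → ℤ)
    (hsign : ∀ t < D, ∀ f hf, A.ask (flagOf h) ρ t
      ((procP A h s L Y Q Λ lam ρ).st dg 0 (A.init (flagOf h) ρ) t) = .sign f hf →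
      SignType.sign (pev h f (fun e => (v e : ℝ))) =
        iansw (a := a) h s L Y Q Λ dg lam (.sign f hf))
    (hzero : ∀ t < D, ∀ f hf, A.ask (flagOf h) ρ t
      ((procP A h s L Y Q Λ lam ρ).st dg 0 (A.init (flagOf h) ρ) t) = .zero f hf →
      fstA A h ρ F (sgv h F (fun e => (v e : ℝ))) t =
        (procP A h s L Y Q Λ lam ρ).st dg 0 (A.init (flagOf h) ρ) t →
      (pev h f (fun e => (v e : ℝ)) = 0 ↔ ∀ y, pev h f y = 0)) (t : ℕ) (ht : t ≤ D) :
    A.state (polFam n d a) (ins h v) ρ t =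
      (procP A h s L Y Q Λ lam ρ).st dg 0 (A.init (flagOf h) ρ) t ∧
    fstA A h ρ F (sgv h F (fun e => (v e : ℝ))) t =
      (procP A h s L Y Q Λ lam ρ).st dg 0 (A.init (flagOf h) ρ) t := by
  classical
  induction t with
  | zero => exact ⟨rfl, rfl⟩
  | succ t ih =>
    obtain ⟨ih1, ih2⟩ := ih (by omega)
    have htD : t < D := by omega
    have hstep : (polFam n d a).ans (A.ask (flagOf h) ρ t
          ((procP A h s L Y Q Λ lam ρ).st dg 0 (A.init (flagOf h) ρ) t)) (ins h v) =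
        iansw h s L Y Q Λ dg lam (A.ask (flagOf h) ρ t
          ((procP A h s L Y Q Λ lam ρ).st dg 0 (A.init (flagOf h) ρ) t)) ∧
        ansA h F (sgv h F (fun e => (v e : ℝ))) (A.ask (flagOf h) ρ t
          ((procP A h s L Y Q Λ lam ρ).st dg 0 (A.init (flagOf h) ρ) t)) =
        iansw h s L Y Q Λ dg lam (A.ask (flagOf h) ρ t
          ((procP A h s L Y Q Λ lam ρ).st dg 0 (A.init (flagOf h) ρ) t)) := by
      rcases hq : A.ask (flagOf h) ρ t
        ((procP A h s L Y Q Λ lam ρ).st dg 0 (A.init (flagOf h) ρ) t) with ⟨f, hf⟩ | ⟨f, hf⟩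
      · have h2 : (polFam n d a).ans (.sign f hf) (ins h v) =
            iansw (a := a) h s L Y Q Λ dg lam (.sign f hf) := by
          rw [ans_sign]
          exact hsign t htD f hf hq
        refine ⟨h2, ?_⟩
        rw [← ansA_sign (d := d) (a := a) h F v f hf (hF t htD _ f hf hq)]
        exact h2
      · refine ⟨?_, rfl⟩
        rw [ans_zero]
        unfold iansw
        simp only
        have h1 := hzero t htD f hf hq ih2
        by_cases h2 : ∀ y, pev h f y = 0
        · rw [if_pos (h2 _), if_pos h2]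
        · rw [if_neg h2, if_neg (fun h3 => h2 (h1.1 h3))]
    rw [st_succ, Nat.zero_add]
    constructor
    · show A.next (flagOf h) ρ t _ ((polFam n d a).ans (A.ask (flagOf h) ρ t
        (A.state (polFam n d a) (ins h v) ρ t)) _) =
        A.next (flagOf h) ρ t _ (iansw h s L Y Q Λ dg lam (A.ask (flagOf h) ρ t _))
      rw [ih1, hstep.1]
    · show A.next (flagOf h) ρ t _ (ansA h F _ (A.ask (flagOf h) ρ t
        (fstA A h ρ F (sgv h F (fun e => (v e : ℝ))) t))) =
        A.next (flagOf h) ρ t _ (iansw h s L Y Q Λ dg lam (A.ask (flagOf h) ρ t _))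
      rw [ih2, hstep.2]

/-- The run on the basic instance. -/
theorem run_base {s L Y Q : ℕ} {Λ : ℝ} (h : 3 * m ≤ n)
    (A : Alg n D W R (PolQ n d a) SignType) (ρ : Fin R → Bool)
    (F : Fin K → MvPolynomial (Fin n × Fin n) ℝ)
    (hF : ∀ t < D, ∀ v f hf, A.ask (flagOf h) ρ t v = .sign f hf → ∃ i, F i = f)
    (dg : E m → Fin k → Fin b) (lam : Bg m k b M N) (hgood : ¬ badF h F s L Y Q Λ dg lam)
    (hN : ¬ badZ A h F ρ id (vr L Y Q dg lam)) :
    A.state (polFam n d a) (ins h (vl L Y Q dg lam)) ρ D =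
      (procP A h s L Y Q Λ lam ρ).st dg 0 (A.init (flagOf h) ρ) D := by
  classical
  refine (run_step h A ρ F hF dg lam (vl L Y Q dg lam) ?_ ?_ D le_rfl).1
  · intro t ht f hf hq
    obtain ⟨i, hi⟩ := hF t ht _ f hf hq
    have h3 : ¬ ¬ GoodS s L Y Q Λ (qp h (F i)) dg lam := fun h4 => hgood ⟨i, h4⟩
    rw [not_not, hi] at h3
    obtain ⟨g1, g2, g3⟩ := h3
    unfold iansw
    simp only
    rw [if_pos g1, ← g2, eval_qp]
    rfl
  · intro t ht f hf hq hst
    constructor
    · intro h1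
      by_contra h2
      push Not at h2
      exact hN ⟨t, ht, f, hf, by
        rw [← hq, ← hst]
        rfl, h2, h1⟩
    · intro h1
      exact h1 _

/-- The run on the planted instance. -/
theorem run_plant {s L Y Q : ℕ} {Λ : ℝ} (h : 3 * m ≤ n)
    (A : Alg n D W R (PolQ n d a) SignType) (ρ : Fin R → Bool)
    (F : Fin K → MvPolynomial (Fin n × Fin n) ℝ)
    (hF : ∀ t < D, ∀ v f hf, A.ask (flagOf h) ρ t v = .sign f hf → ∃ i, F i = f)
    (dg : E m → Fin k → Fin b) (lam : Bg m k b M N) (hgood : ¬ badF h F s L Y Q Λ dg lam)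
    (i j l : Fin m) (h0 : lam.1 (0, i, j) = false)
    (h1 : lam.1 (1, j, l) = false) (hd : dg (1, j, l) = dg (0, i, j))
    (hN : ¬ badZ A h F ρ (plt (0, i, j) (1, j, l)) (vr L Y Q dg lam))
    (hrev : ∀ t < D, ((0, i, j) : E m) ∉ mt (SQ h s Q Λ lam.1 (A.ask (flagOf h) ρ t
      ((procP A h s L Y Q Λ lam ρ).st dg 0 (A.init (flagOf h) ρ) t))) dg k) :
    A.state (polFam n d a) (ins h (plv L Y Q dg lam (0, i, j) (1, j, l))) ρ D =
      (procP A h s L Y Q Λ lam ρ).st dg 0 (A.init (flagOf h) ρ) D := by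
  classical
  have hne : ((0, i, j) : E m) ≠ (1, j, l) := by
    intro h8
    have h9 : (0 : Fin 3) = 1 := congrArg Prod.fst h8
    exact absurd h9 (by decide)
  have hpl : (fun e => ((plv L Y Q dg lam (0, i, j) (1, j, l) e : ℤ) : ℝ)) =
      plt (0, i, j) (1, j, l) (vr L Y Q dg lam) := by
    funext e
    unfold plv plt vr
    by_cases he : e = (0, i, j)
    · rw [he, Function.update_self, Function.update_self]
    · rw [Function.update_of_ne he, Function.update_of_ne he]
  refine (run_step h A ρ F hF dg lam (plv L Y Q dg lam (0, i, j) (1, j, l)) ?_ ?_ D le_rfl).1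
  · intro t ht f hf hq
    have hr := hrev t ht
    rw [hq] at hr
    obtain ⟨i', hi'⟩ := hF t ht _ f hf hq
    have h3 : ¬ ¬ GoodS s L Y Q Λ (qp h (F i')) dg lam := fun h4 => hgood ⟨i', h4⟩
    rw [not_not, hi'] at h3
    obtain ⟨g1, g2, g3⟩ := h3
    unfold SQ at hr
    simp only at hr
    rw [if_pos g1] at hr
    unfold iansw
    simp only
    rw [if_pos g1, ← g3 (0, i, j) (1, j, l) h0 h1 hne hd hr, eval_qp, hpl]
    rfl
  · intro t ht f hf hq hst
    have hr := hrev t ht
    rw [hq] at hr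
    rw [hpl] at hst ⊢
    constructor
    · intro h2
      by_contra h3
      apply hN
      refine ⟨t, ht, f, hf, by rw [hst]; exact hq, ?_, h2⟩
      by_contra hcon
      push Not at hcon
      apply hr
      have h5 : (((0, i, j) : E m), ((1, j, l) : E m)) ∈ covp h f := by
        unfold covp
        rw [if_neg h3, mem_filter]
        refine ⟨mem_univ _, rfl, rfl, fun y hy => ?_⟩
        have h6 := hcon y
        unfold plt at h6
        have h7 : y (1, j, l) = y (0, i, j) := hy.symm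
        rw [h7, Function.update_eq_self] at h6
        exact h6
      have h6 : (0, i, j) ∈ cove h f :=
        Finset.mem_union_left _ (Finset.mem_image_of_mem Prod.fst h5)
      have h7 : (1, j, l) ∈ cove h f :=
        Finset.mem_union_right _ (Finset.mem_image_of_mem Prod.snd h5)
      unfold Pool.Agent.Helper21.DS.mt
      rw [Finset.mem_filter]
      exact ⟨h6, Or.inr ⟨(1, j, l), h7, hne.symm, by rw [hd]⟩⟩
    · intro h2
      exact h2 _

/-- If nothing goes wrong and the outputs on the basic and the planted instance differ, then the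
element `(0, i, j)` is revealed on level `k` by the ideal run. -/
theorem output_plant {s L Y Q : ℕ} {Λ : ℝ} (h : 3 * m ≤ n)
    (A : Alg n D W R (PolQ n d a) SignType) (ρ : Fin R → Bool)
    (F : Fin K → MvPolynomial (Fin n × Fin n) ℝ)
    (hF : ∀ t < D, ∀ v f hf, A.ask (flagOf h) ρ t v = .sign f hf → ∃ i, F i = f)
    (ω : (E m → Fin k → Fin b) × Bg m k b M N) (hω : ω ∉ BadP A h F s L Y Q Λ ρ)
    (i j l : Fin m) (h0 : ω.2.1 (0, i, j) = false)
    (h1 : ω.2.1 (1, j, l) = false) (hd : ω.1 (1, j, l) = ω.1 (0, i, j))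
    (hne : A.output (polFam n d a) (ins h (vl L Y Q ω.1 ω.2)) ρ ≠
      A.output (polFam n d a) (ins h (plv L Y Q ω.1 ω.2 (0, i, j) (1, j, l))) ρ) :
    (0, i, j) ∈ (procP A h s L Y Q Λ ω.2 ρ).rev ω.1 0 (A.init (flagOf h) ρ) D k := by
  classical
  by_contra hcon
  apply hne
  have hbF : ¬ badF h F s L Y Q Λ ω.1 ω.2 :=
    fun h2 => hω (mem_filter.2 ⟨mem_univ _, Or.inl h2⟩)
  have hbN : ¬ badZ A h F ρ id (vr L Y Q ω.1 ω.2) :=
    fun h2 => hω (mem_filter.2 ⟨mem_univ _, Or.inr (Or.inl h2)⟩)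
  have hbQ : ¬ badZ A h F ρ (plt (0, i, j) (1, j, l)) (vr L Y Q ω.1 ω.2) :=
    fun h2 => hω (mem_filter.2 ⟨mem_univ _, Or.inr (Or.inr ⟨i, j, l, h2⟩)⟩)
  have hrev : ∀ t < D, ((0, i, j) : E m) ∉ mt (SQ h s Q Λ ω.2.1 (A.ask (flagOf h) ρ t
      ((procP A h s L Y Q Λ ω.2 ρ).st ω.1 0 (A.init (flagOf h) ρ) t))) ω.1 k := by
    intro t ht hmem
    apply hcon
    rw [mem_rev]
    refine ⟨t, ht, ?_⟩
    rw [Nat.zero_add]
    exact hmem
  have e1 := run_base h A ρ F hF ω.1 ω.2 hbF hbN
  have e2 := run_plant h A ρ F hF ω.1 ω.2 hbF i j l h0 h1 hd hbQ hrev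
  show A.out (flagOf h) ρ _ = A.out (flagOf h) ρ _
  rw [e1, e2]

end Pool.Agent.Helper8.PQ
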