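import Pool.Agent.Helper8.PQ.Defs
import Pool.Agent.Helper22.PL.Anti

set_option autoImplicit false

/-!
# Anticoncentration
-/

namespace Pool.Agent.Helper8.PQ

open Finset

variable {ι : Type} [Fintype ι] [DecidableEq ι]

/-- The constant of the anticoncentration lemma. -/
def acC (d : ℕ) : ℕ := (d + 2) * 2 ^ (2 * d + 1) * d ^ d

theorem one_le_acC (d : ℕ) : 1 ≤ acC d := by
  have := Pool.Agent.Helper22.PL.two_le_acC d
  have h : acC d = Pool.Agent.Helper22.PL.acC d := rfl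
  omega

open Classical in
/-- Anticoncentration (helper22). -/
theorem anti (p : MvPolynomial ι ℝ) {d : ℕ} (hp : p.totalDegree ≤ d) (c a : ι → ℝ)
    (hc : ∀ i, 0 ≤ c i) {N : ℕ} {B Λ : ℝ} (hB1 : 1 ≤ B)
    (hB : ∀ i, ∀ x : Fin (N + 1), |a i + ((x : ℕ) : ℝ)| ≤ B)
    (hΛ : (acC d : ℝ) * (p.support.card : ℝ) * B ≤ Λ) (μ : ι →₀ ℕ) (hμ : μ ∈ p.support) :
    (univ.filter fun ξ : ι → Fin (N + 1) =>
      (acC d : ℝ) * Λ ^ d * |MvPolynomial.eval (fun i => c i * (a i + ((ξ i : ℕ) : ℝ))) p| <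
        |p.coeff μ| * (∏ i, c i ^ μ i) * Λ ^ μ.degree).card * (N + 1) ≤
      d ^ 2 * Fintype.card (ι → Fin (N + 1)) := by
  have hac : acC d = Pool.Agent.Helper22.PL.acC d := rfl
  rw [Finsupp.degree_eq_sum, hac]
  rw [hac] at hΛ
  convert Pool.Agent.Helper22.PL.anti p hp c a hc hB1 hB hΛ hμ

end Pool.Agent.Helper8.PQ
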