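import Pool.Agent.Helper8.PQ.Defs

set_option autoImplicit false

/-!
# Variables that can be dropped
-/

namespace Pool.Agent.Helper8.PQ

open Finset

variable {ι : Type} [Fintype ι] [DecidableEq ι]

/-- Deleting one more variable. -/
theorem dgd_update {δ : ι → Bool} {e : ι} (h1 : δ e = false) (μ : ι →₀ ℕ) :
    dgd (Function.update δ e true) μ = dgd δ μ + μ e := by
  unfold dgd
  have h2 : ∀ i, (if Function.update δ e true i = true then μ i else 0) =
      (if δ i = true then μ i else 0) + (if i = e then μ e else 0) := by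
    intro i
    by_cases hi : i = e
    · subst hi
      simp [h1]
    · simp [hi]
  rw [sum_congr rfl (fun i _ => h2 i), sum_add_distrib, sum_ite_eq' univ e (fun _ => μ e)]
  simp

omit [DecidableEq ι] in
theorem mag_nonneg {q Λ : ℝ} (hq : 1 ≤ q) (hΛ : 0 ≤ Λ) (p : MvPolynomial ι ℝ) (δ : ι → Bool)
    (μ : ι →₀ ℕ) : 0 ≤ mag q Λ p δ μ := by
  unfold mag
  positivity

/-- A monomial with a variable that is neither deleted nor pivotal is small: deleting the variable
`e` multiplies the magnitude by `q ^ μ e ≥ q`, and the result is not larger than the maximum. -/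
theorem mag_small {q Λ : ℝ} (hq : 1 ≤ q) (hΛ : 0 ≤ Λ) (p : MvPolynomial ι ℝ) (δ : ι → Bool)
    {μ0 : ι →₀ ℕ} (hmax : ∀ μ ∈ p.support, mag q Λ p δ μ ≤ mag q Λ p δ μ0)
    {μ : ι →₀ ℕ} (hμ : μ ∈ p.support) {e : ι} (he : e ∈ μ.support) (h1 : δ e = false)
    (h2 : e ∉ piv q Λ p δ) : q * mag q Λ p δ μ ≤ mag q Λ p δ μ0 := by
  unfold piv at h2
  rw [mem_filter] at h2
  push Not at h2
  obtain ⟨μ', hμ', h3⟩ := h2 (mem_univ _) h1 μ hμ
  refine le_trans ?_ (h3.trans (hmax μ' hμ'))
  have h4 : mag q Λ p (Function.update δ e true) μ = q ^ (μ e) * mag q Λ p δ μ := by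
    unfold mag
    rw [dgd_update h1, pow_add]
    ring
  rw [h4]
  exact mul_le_mul_of_nonneg_right (le_self_pow₀ hq (Finsupp.mem_support_iff.1 he))
    (mag_nonneg hq hΛ p δ μ)

/-- The monomial of maximal magnitude contains only deleted and pivotal variables. -/
theorem max_inside {q Λ : ℝ} (hq : 1 < q) (hΛ : 0 < Λ) (p : MvPolynomial ι ℝ) (δ : ι → Bool)
    {μ0 : ι →₀ ℕ} (h0 : μ0 ∈ p.support)
    (hmax : ∀ μ ∈ p.support, mag q Λ p δ μ ≤ mag q Λ p δ μ0) {e : ι} (he : e ∈ μ0.support) :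
    δ e = true ∨ e ∈ piv q Λ p δ := by
  by_contra hcon
  push Not at hcon
  obtain ⟨h1, h2⟩ := hcon
  have h3 := mag_small hq.le hΛ.le p δ hmax h0 he (by simpa using h1) h2
  have h4 : 0 < mag q Λ p δ μ0 := by
    unfold mag
    have : 0 < |p.coeff μ0| := abs_pos.2 (MvPolynomial.mem_support_iff.1 h0)
    positivity
  nlinarith

/-- The variables that are neither deleted nor pivotal can be dropped. -/
theorem drop_small {q Λ B : ℝ} (hq : 1 ≤ q) (hB : 0 ≤ B) (hΛ : 2 * B ≤ Λ)
    (p : MvPolynomial ι ℝ) (δ : ι → Bool) {μ0 : ι →₀ ℕ}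
    (hmax : ∀ μ ∈ p.support, mag q Λ p δ μ ≤ mag q Λ p δ μ0) (v : ι → ℝ)
    (hv1 : ∀ i, δ i = true → |v i| ≤ q * B) (hv2 : ∀ i, δ i = false → |v i| ≤ 2 * B) :
    |MvPolynomial.eval v p - MvPolynomial.eval (cut δ (piv q Λ p δ) v) p| * q ≤
      (p.support.card : ℝ) * mag q Λ p δ μ0 := by
  have hΛ0 : 0 ≤ Λ := le_trans (by positivity) hΛ
  -- the bound for one monomial
  have hterm : ∀ μ ∈ p.support,
      |p.coeff μ * ∏ i ∈ μ.support, v i ^ μ i -
        p.coeff μ * ∏ i ∈ μ.support, cut δ (piv q Λ p δ) v i ^ μ i| * q ≤ mag q Λ p δ μ0 := by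
    intro μ hμ
    by_cases hall : ∀ e ∈ μ.support, δ e = true ∨ e ∈ piv q Λ p δ
    · have h1 : ∏ i ∈ μ.support, cut δ (piv q Λ p δ) v i ^ μ i = ∏ i ∈ μ.support, v i ^ μ i := by
        apply prod_congr rfl
        intro i hi
        unfold cut
        rw [if_pos (hall i hi)]
      rw [h1, sub_self, abs_zero, zero_mul]
      exact (mag_nonneg hq hΛ0 p δ μ).trans (hmax μ hμ)
    · push Not at hall
      obtain ⟨e, he, h1, h2⟩ := hall
      have h3 : ∏ i ∈ μ.support, cut δ (piv q Λ p δ) v i ^ μ i = 0 := by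
        apply prod_eq_zero he
        unfold cut
        rw [if_neg (by push Not; exact ⟨h1, h2⟩)]
        exact zero_pow (Finsupp.mem_support_iff.1 he)
      rw [h3, mul_zero, sub_zero, abs_mul, abs_prod]
      have h4 : ∏ i ∈ μ.support, |v i ^ μ i| ≤ q ^ dgd δ μ * Λ ^ μ.degree := by
        have h5 : ∀ i ∈ μ.support, |v i ^ μ i| ≤
            q ^ (if δ i = true then μ i else 0) * Λ ^ μ i := by
          intro i _
          rw [abs_pow]
          by_cases hi : δ i = true
          · rw [if_pos hi, ← mul_pow]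
            apply pow_le_pow_left₀ (abs_nonneg _)
            refine (hv1 i hi).trans ?_
            apply mul_le_mul_of_nonneg_left _ (by linarith)
            linarith
          · rw [if_neg hi, pow_zero, one_mul]
            apply pow_le_pow_left₀ (abs_nonneg _)
            exact (hv2 i (by simpa using hi)).trans hΛ
        refine (prod_le_prod (fun i _ => abs_nonneg _) h5).trans (le_of_eq ?_)
        rw [prod_mul_distrib, prod_pow_eq_pow_sum, prod_pow_eq_pow_sum]
        have h6 : ∑ i ∈ μ.support, (if δ i = true then μ i else 0) = dgd δ μ := by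
          unfold dgd
          apply sum_subset (subset_univ _)
          intro i _ hi
          rw [Finsupp.notMem_support_iff] at hi
          simp [hi]
        rw [h6, Finsupp.degree]
        rfl
      have h7 : |p.coeff μ| * ∏ i ∈ μ.support, |v i ^ μ i| ≤ mag q Λ p δ μ := by
        unfold mag
        rw [mul_assoc]
        exact mul_le_mul_of_nonneg_left h4 (abs_nonneg _)
      calc |p.coeff μ| * (∏ i ∈ μ.support, |v i ^ μ i|) * q
          ≤ mag q Λ p δ μ * q := mul_le_mul_of_nonneg_right h7 (by linarith)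
        _ = q * mag q Λ p δ μ := mul_comm _ _
        _ ≤ _ := mag_small hq hΛ0 p δ hmax hμ he (by simpa using h1) h2
  rw [MvPolynomial.eval_eq, MvPolynomial.eval_eq, ← sum_sub_distrib]
  calc |∑ μ ∈ p.support, (p.coeff μ * ∏ i ∈ μ.support, v i ^ μ i -
        p.coeff μ * ∏ i ∈ μ.support, cut δ (piv q Λ p δ) v i ^ μ i)| * q
      ≤ (∑ μ ∈ p.support, |p.coeff μ * ∏ i ∈ μ.support, v i ^ μ i -
        p.coeff μ * ∏ i ∈ μ.support, cut δ (piv q Λ p δ) v i ^ μ i|) * q :=
        mul_le_mul_of_nonneg_right (abs_sum_le_sum_abs _ _) (by linarith)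
    _ = ∑ μ ∈ p.support, |p.coeff μ * ∏ i ∈ μ.support, v i ^ μ i -
        p.coeff μ * ∏ i ∈ μ.support, cut δ (piv q Λ p δ) v i ^ μ i| * q := by rw [sum_mul]
    _ ≤ ∑ μ ∈ p.support, mag q Λ p δ μ0 := sum_le_sum hterm
    _ = _ := by rw [sum_const, nsmul_eq_mul]

end Pool.Agent.Helper8.PQ
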