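import Mathlib

set_option autoImplicit false

/-!
# The number of monomials
-/

namespace Pool.Agent.Helper8.PQ

open Finset

/-- A monomial of degree at most `d` is a product of `d` factors, each a variable or `1`. -/
theorem exists_rep {ι : Type} (d : ℕ) : ∀ μ : ι →₀ ℕ, μ.degree ≤ d →
    ∃ g : Fin d → Option ι, (∑ j, (g j).elim 0 (fun i => Finsupp.single i 1)) = μ := by
  induction d with
  | zero =>
    intro μ hμ
    refine ⟨fun _ => none, ?_⟩
    have h1 : μ.degree = 0 := by omega
    rw [Finsupp.degree_eq_zero_iff] at h1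
    simp [h1]
  | succ d ih =>
    intro μ hμ
    by_cases h0 : μ = 0
    · refine ⟨fun _ => none, ?_⟩
      simp [h0]
    · obtain ⟨i, hi⟩ := Finsupp.ne_iff.1 h0
      have h1 : Finsupp.single i 1 ≤ μ := by
        rw [Finsupp.single_le_iff]
        exact Nat.one_le_iff_ne_zero.2 (by simpa using hi)
      have h2 : Finsupp.single i 1 + (μ - Finsupp.single i 1) = μ := add_tsub_cancel_of_le h1
      have h3 : (μ - Finsupp.single i 1).degree ≤ d := by
        have h4 := congrArg Finsupp.degree h2
        rw [map_add, Finsupp.degree_single] at h4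
        omega
      obtain ⟨g, hg⟩ := ih _ h3
      refine ⟨Fin.cons (some i) g, ?_⟩
      rw [Fin.sum_univ_succ]
      simp only [Fin.cons_zero, Fin.cons_succ, Option.elim_some]
      rw [hg, h2]

/-- The number of monomials of a polynomial. -/
theorem support_card_le {ι : Type} [Fintype ι] [DecidableEq ι] (p : MvPolynomial ι ℝ) {d : ℕ}
    (hp : p.totalDegree ≤ d) : p.support.card ≤ (Fintype.card ι + 1) ^ d := by
  classical
  have h1 : p.support ⊆ (univ : Finset (Fin d → Option ι)).image
      (fun g => ∑ j, (g j).elim 0 (fun i => Finsupp.single i 1)) := by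
    intro μ hμ
    have h2 : μ.degree ≤ d := by
      refine le_trans ?_ hp
      exact MvPolynomial.le_totalDegree hμ
    obtain ⟨g, hg⟩ := exists_rep d μ h2
    exact mem_image.2 ⟨g, mem_univ _, hg⟩
  calc p.support.card ≤ _ := card_le_card h1
    _ ≤ (univ : Finset (Fin d → Option ι)).card := card_image_le
    _ = (Fintype.card ι + 1) ^ d := by
      rw [card_univ, Fintype.card_fun, Fintype.card_option, Fintype.card_fin]

end Pool.Agent.Helper8.PQ
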