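import Pool.Agent.Helper8.PQ.Defs
import Pool.Agent.Helper21.DS.Mt
import Pool.Agent.Helper71.PL.Plant

set_option autoImplicit false

/-!
# Planting: the value of a lost element stays in its interval
-/

namespace Pool.Agent.Helper8.PQ

open Finset
open Pool.Agent.Helper22.ETModel Pool.Agent.Helper22.EP
open Pool.Agent.Helper23.SP (pre sg)
open Pool.Agent.Helper21.DS (mt strc)

variable {m k b M N : ℕ} [NeZero b]

open Classical in
/-- Planting does not change the sign and does not make the value small, except for few masks: for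
`x ∈ S` that is lost on level `i + 1` let `h (t)` be the value at the point with `x := t`; if
`h - err` and `h + err` have no root in the interval of the mask of `x` on level `i`, then all is
well; `vr y` lies in the same interval as `vr x`. -/
theorem plant_card {d s L Y Q : ℕ} (hL : 2 * N + 2 ≤ L) (hY : M ≤ Y)
    (p : MvPolynomial (E m) ℝ) (hp : p.totalDegree ≤ d) (S : Finset (E m)) (hS : S.card ≤ s)
    (dg : E m → Fin k → Fin b) (δ : E m → Bool) (hδ : ∀ e ∈ S, δ e = false)
    (ξ : E m → Fin (N + 1)) {err : ℝ} (he : 0 ≤ err) :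
    (univ.filter fun u : Fin k → (Fin k → Fin b) → Fin M =>
      ∃ x ∈ S, x ∉ mt S dg k ∧ ∃ y, δ y = false ∧ dg y = dg x ∧
        err < |MvPolynomial.eval (cut δ S (vr L Y Q dg (δ, u, ξ))) p| ∧
        ¬ (err < |MvPolynomial.eval (Function.update (cut δ S (vr L Y Q dg (δ, u, ξ))) x
            (vr L Y Q dg (δ, u, ξ) y)) p| ∧
          SignType.sign (MvPolynomial.eval (Function.update
            (cut δ S (vr L Y Q dg (δ, u, ξ))) x (vr L Y Q dg (δ, u, ξ) y)) p) =
          SignType.sign (MvPolynomial.eval (cut δ S (vr L Y Q dg (δ, u, ξ))) p))).card * M ≤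
      s * (2 * d) * Fintype.card (Fin k → (Fin k → Fin b) → Fin M) := by
  have hpar : ∀ e : E m, 0 ≤ par e ∧ par e ≤ 1 := by
    intro e
    unfold par
    split_ifs
    · exact ⟨zero_le_one, le_rfl⟩
    · exact ⟨le_rfl, zero_le_one⟩
  have hnu : ∀ e : E m, 0 ≤ 2 * ((ξ e : ℕ) : ℤ) + par e ∧ 2 * ((ξ e : ℕ) : ℤ) + par e < L := by
    intro e
    have h1 := hpar e
    have h2 := (ξ e).isLt
    constructor
    · have : (0 : ℤ) ≤ ((ξ e : ℕ) : ℤ) := Int.natCast_nonneg _
      linarith [h1.1]
    · have h3 : ((ξ e : ℕ) : ℤ) ≤ N := by exact_mod_cast Nat.lt_succ_iff.1 h2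
      have h4 : (2 : ℤ) * N + 2 ≤ L := by exact_mod_cast hL
      linarith [h1.2]
  have h1 : ∀ u : Fin k → (Fin k → Fin b) → Fin M, cut δ S (vr L Y Q dg (δ, u, ξ)) =
      Pool.Agent.Helper71.PL.av L Y S u dg (fun e => 2 * ((ξ e : ℕ) : ℤ) + par e)
        (fun e => if δ e = true then (((Q : ℤ) * ((ξ e : ℕ) : ℤ) + par e : ℤ) : ℝ) else 0) := by
    intro u
    funext e
    unfold cut vr vl Pool.Agent.Helper71.PL.av Pool.Agent.Helper64.PL.fv
    by_cases he : e ∈ S
    · have h2 : δ e = false := hδ e he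
      simp only [he, h2, or_true, if_true, if_false, Bool.false_eq_true]
      congr 1
      ring
    · by_cases h2 : δ e = true
      · simp only [he, h2, true_or, if_true, if_false]
      · simp [he, h2]
  have key := Pool.Agent.Helper71.PL.plant_all (M := M) (L := L) (Y := Y) (d := d) (by omega) hY S
    dg (fun e => 2 * ((ξ e : ℕ) : ℤ) + par e) (fun e _ => hnu e)
    (fun e => if δ e = true then (((Q : ℤ) * ((ξ e : ℕ) : ℤ) + par e : ℤ) : ℝ) else 0) p hp he
  refine le_trans (Nat.mul_le_mul_right M (card_le_card ?_))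
    (key.trans (Nat.mul_le_mul_right _ (Nat.mul_le_mul_right _ hS)))
  intro u hu
  rw [mem_filter] at hu ⊢
  obtain ⟨-, x, hx, hxk, y, hy, hdg, h2, h3⟩ := hu
  have h4 : vr L Y Q dg (δ, u, ξ) y =
      (((L : ℤ) * strc Y u (dg x) + (2 * ((ξ y : ℕ) : ℤ) + par y) : ℤ) : ℝ) := by
    unfold vr vl
    simp only [hy, if_false, Bool.false_eq_true, hdg]
    congr 1
    ring
  rw [h1 u] at h2 h3
  rw [h4] at h3
  exact ⟨mem_univ _, x, hx, hxk, h2, _, (hnu y).1, (hnu y).2, h3⟩

end Pool.Agent.Helper8.PQ
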