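import Pool.Agent.Helper8.PQ.Defs
import Pool.Agent.Helper21.DS.Mt
import Pool.Agent.Helper64.PL.Levels

set_option autoImplicit false

/-!
# Truncation: one exclusive mask after the other
-/

namespace Pool.Agent.Helper8.PQ

open Finset
open Pool.Agent.Helper22.ETModel Pool.Agent.Helper22.EP
open Pool.Agent.Helper23.SP (pre sg)
open Pool.Agent.Helper21.DS (mt strc)

variable {m k b M N : ℕ} [NeZero b]

open Classical in
/-- The ideal answer is the sign at the point with all other variables dropped, except for few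
masks (hybrid argument: replace `vl e` by `rp e` for one `e ∈ S` after the other). -/
theorem trunc_card {d s L Y Q : ℕ} (hL : 2 * N + 2 ≤ L) (hY : M ≤ Y)
    (p : MvPolynomial (E m) ℝ) (hp : p.totalDegree ≤ d) (S : Finset (E m)) (hS : S.card ≤ s)
    (dg : E m → Fin k → Fin b) (δ : E m → Bool) (hδ : ∀ e ∈ S, δ e = false)
    (ξ : E m → Fin (N + 1)) :
    (univ.filter fun u : Fin k → (Fin k → Fin b) → Fin M =>
      SignType.sign (MvPolynomial.eval (cut δ S (vr L Y Q dg (δ, u, ξ))) p) ≠
        idl L Y Q p S dg (δ, u, ξ)).card * M ≤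
      s * d * Fintype.card (Fin k → (Fin k → Fin b) → Fin M) := by
  have hpar : ∀ e : E m, 0 ≤ par e ∧ par e ≤ 1 := by
    intro e
    unfold par
    split_ifs
    · exact ⟨zero_le_one, le_rfl⟩
    · exact ⟨le_rfl, zero_le_one⟩
  have key := Pool.Agent.Helper64.PL.hybrid (M := M) (L := L) (Y := Y) (d := d) hY S dg
    (fun e => 2 * ((ξ e : ℕ) : ℤ) + par e)
    (fun e _ => by
      have h1 := hpar e
      have h2 := (ξ e).isLt
      constructor
      · have : (0 : ℤ) ≤ ((ξ e : ℕ) : ℤ) := Int.natCast_nonneg _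
        linarith [h1.1]
      · have h3 : ((ξ e : ℕ) : ℤ) ≤ N := by exact_mod_cast Nat.lt_succ_iff.1 h2
        have h4 : (2 : ℤ) * N + 2 ≤ L := by exact_mod_cast hL
        linarith [h1.2])
    (fun e => if δ e = true then (((Q : ℤ) * ((ξ e : ℕ) : ℤ) + par e : ℤ) : ℝ) else 0) p
    (fun e _ => (MvPolynomial.degreeOf_le_totalDegree p e).trans hp)
  have h1 : ∀ u : Fin k → (Fin k → Fin b) → Fin M, cut δ S (vr L Y Q dg (δ, u, ξ)) = fun e =>
      if e ∈ S then (Pool.Agent.Helper64.PL.fv L Y u dg (fun e => 2 * ((ξ e : ℕ) : ℤ) + par e) e : ℝ)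
      else (if δ e = true then (((Q : ℤ) * ((ξ e : ℕ) : ℤ) + par e : ℤ) : ℝ) else 0) := by
    intro u
    funext e
    unfold cut vr vl Pool.Agent.Helper64.PL.fv
    by_cases he : e ∈ S
    · have h2 : δ e = false := hδ e he
      simp only [he, h2, or_true, if_true, if_false, Bool.false_eq_true]
      congr 1
      ring
    · by_cases h2 : δ e = true
      · simp only [he, h2, true_or, if_true, if_false]
      · simp [he, h2]
  have h2 : ∀ u : Fin k → (Fin k → Fin b) → Fin M, ipt L Y Q S dg (δ, u, ξ) = fun e =>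
      if e ∈ S then (Pool.Agent.Helper64.PL.rv L Y S u dg (fun e => 2 * ((ξ e : ℕ) : ℤ) + par e) e : ℝ)
      else (if δ e = true then (((Q : ℤ) * ((ξ e : ℕ) : ℤ) + par e : ℤ) : ℝ) else 0) := by
    intro u
    funext e
    unfold ipt vr vl rp Pool.Agent.Helper64.PL.rv
    by_cases he : e ∈ S
    · have h2 : δ e = false := hδ e he
      simp only [he, h2, if_true, if_false, Bool.false_eq_true]
    · by_cases h2 : δ e = true
      · simp only [he, h2, if_true, if_false]
      · simp only [he, h2, if_false]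
        rfl
  unfold idl
  simp only [h1, h2]
  exact key.trans (Nat.mul_le_mul_right _ (Nat.mul_le_mul_right _ hS))

end Pool.Agent.Helper8.PQ
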