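import Pool.Agent.Helper8.PQ.BadZ
import Pool.Agent.Helper8.PQ.Good

set_option autoImplicit false

/-!
# Nothing goes wrong with large probability
-/

namespace Pool.Agent.Helper8.PQ

open Finset
open Pool.Agent.Helper22.ETModel Pool.Agent.Helper22.TSModel Pool.Agent.Helper22.EP
open Pool.Agent.Helper23.SP (pre sg)
open Pool.Agent.Helper8.ZT (pev covp LineOK adaptive_sz)
open Pool.Agent.Helper21.DS (mt DProc strc cove)

variable {m n k b M N d a D W R K : ℕ} [NeZero b]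

/-- Counting in a product. -/
lemma card_prod_le {α β : Type} [Fintype α] [Fintype β] (P : α → β → Prop)
    [DecidablePred fun ω : α × β => P ω.1 ω.2] [∀ a, DecidablePred (P a)] (X c : ℕ)
    (hP : ∀ a, (univ.filter fun b : β => P a b).card * X ≤ c * Fintype.card β) :
    (univ.filter fun ω : α × β => P ω.1 ω.2).card * X ≤ c * Fintype.card (α × β) := by
  have h1 : (univ.filter fun ω : α × β => P ω.1 ω.2).card =
      ∑ a : α, (univ.filter fun b : β => P a b).card := by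
    rw [card_filter, Fintype.sum_prod_type]
    refine sum_congr rfl fun a _ => ?_
    rw [card_filter]
  rw [h1, sum_mul, Fintype.card_prod]
  calc ∑ a : α, (univ.filter fun b : β => P a b).card * X
      ≤ ∑ _a : α, c * Fintype.card β := sum_le_sum fun a _ => hP a
    _ = c * (Fintype.card α * Fintype.card β) := by
        rw [sum_const, card_univ, smul_eq_mul]
        ring

open Classical in
/-- The list is bad with small probability. -/
theorem card_badF {t s L Y Q H : ℕ} {Λ : ℝ} (h : 3 * m ≤ n)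
    (F : Fin K → MvPolynomial (Fin n × Fin n) ℝ) (hFd : ∀ i, (F i).totalDegree ≤ d)
    (hd : 1 ≤ d) (hs : 2 * d * t ≤ s)
    (hK : 256 * K ≤ 2 ^ t) (hN : 256 * K * d ^ 2 ≤ N + 1) (hM : 256 * K * (3 * s * d) ≤ M)
    (hL : 2 * N + 2 ≤ L) (hY : M ≤ Y) (hY1 : 1 ≤ Y) (hH : (3 * m ^ 2 + 1) ^ d ≤ H)
    (hΛ : (acC d : ℝ) * H * (L * (Y : ℝ) ^ k) ≤ Λ)
    (hQ : 2 * (acC d : ℝ) * H * Λ ^ d ≤ Q) :
    256 * (univ.filter fun ω : (E m → Fin k → Fin b) × Bg m k b M N =>
      badF h F s L Y Q Λ ω.1 ω.2).card ≤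
      3 * Fintype.card ((E m → Fin k → Fin b) × Bg m k b M N) := by
  set T := Fintype.card ((E m → Fin k → Fin b) × Bg m k b M N) with hT
  rcases Nat.eq_zero_or_pos K with hK0 | hK0
  · subst hK0
    have h0 : (univ.filter fun ω : (E m → Fin k → Fin b) × Bg m k b M N =>
        badF h F s L Y Q Λ ω.1 ω.2) = ∅ :=
      filter_eq_empty_iff.2 fun ω _ hω => Fin.elim0 hω.choose
    rw [h0, card_empty, mul_zero]
    exact Nat.zero_le _
  have hsub : (univ.filter fun ω : (E m → Fin k → Fin b) × Bg m k b M N =>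
      badF h F s L Y Q Λ ω.1 ω.2) ⊆ (univ : Finset (Fin K)).biUnion fun i =>
        (univ.filter fun ω : (E m → Fin k → Fin b) × Bg m k b M N =>
          ¬ GoodS s L Y Q Λ (qp h (F i)) ω.1 ω.2) := by
    intro ω hω
    obtain ⟨i, hi⟩ := (mem_filter.1 hω).2
    exact mem_biUnion.2 ⟨i, mem_univ _, mem_filter.2 ⟨mem_univ _, hi⟩⟩
  have hone : ∀ i : Fin K, 256 * K * (univ.filter fun ω : (E m → Fin k → Fin b) ×
      Bg m k b M N => ¬ GoodS s L Y Q Λ (qp h (F i)) ω.1 ω.2).card ≤ 3 * T := by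
    intro i
    exact goodS_card hd hs hK hN hM hL hY hY1 hH hΛ hQ (qp h (F i))
      ((totalDegree_qp h (F i)).trans (hFd i))
  have h4 := (card_le_card hsub).trans card_biUnion_le
  apply Nat.le_of_mul_le_mul_left _ hK0
  calc K * (256 * (univ.filter fun ω : (E m → Fin k → Fin b) × Bg m k b M N =>
      badF h F s L Y Q Λ ω.1 ω.2).card) = 256 * K * (univ.filter fun ω :
        (E m → Fin k → Fin b) × Bg m k b M N => badF h F s L Y Q Λ ω.1 ω.2).card := by ring
    _ ≤ 256 * K * ∑ i : Fin K, _ := Nat.mul_le_mul_left _ h4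
    _ = ∑ i : Fin K, 256 * K * _ := mul_sum _ _ _
    _ ≤ ∑ _i : Fin K, 3 * T := sum_le_sum fun i _ => hone i
    _ = K * (3 * T) := by rw [sum_const, card_univ, Fintype.card_fin, smul_eq_mul]

open Classical in
/-- Exceptional zero tests have small probability. -/
theorem card_badNQ (A : Alg n D W R (PolQ n d a) SignType) (h : 3 * m ≤ n)
    (F : Fin K → MvPolynomial (Fin n × Fin n) ℝ) (hFd : ∀ i, (F i).totalDegree ≤ d)
    {L Y Q : ℕ} (hQ : 1 ≤ Q) (ρ : Fin R → Bool)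
    (h4 : 256 * ((1 + m ^ 3) * (D * (3 * m ^ 2 * ((2 * d * K + 1) * a)))) ≤ N + 1) :
    256 * (univ.filter fun ω : (E m → Fin k → Fin b) × Bg m k b M N =>
      badZ A h F ρ id (vr L Y Q ω.1 ω.2) ∨
      ∃ i j l : Fin m, badZ A h F ρ (plt (0, i, j) (1, j, l)) (vr L Y Q ω.1 ω.2)).card ≤
      Fintype.card ((E m → Fin k → Fin b) × Bg m k b M N) := by
  set c := (1 + m ^ 3) * (D * (3 * m ^ 2 * ((2 * d * K + 1) * a))) with hc
  have key : (univ.filter fun ω : (E m → Fin k → Fin b) × Bg m k b M N =>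
      badZ A h F ρ id (vr L Y Q ω.1 ω.2) ∨
      ∃ i j l : Fin m, badZ A h F ρ (plt (0, i, j) (1, j, l)) (vr L Y Q ω.1 ω.2)).card *
      (N + 1) ≤ c * Fintype.card ((E m → Fin k → Fin b) × Bg m k b M N) := by
    refine card_prod_le (fun dg (lam : Bg m k b M N) => badZ A h F ρ id (vr L Y Q dg lam) ∨
      ∃ i j l : Fin m, badZ A h F ρ (plt (0, i, j) (1, j, l)) (vr L Y Q dg lam))
      (N + 1) c fun dg => ?_
    refine card_prod_le (fun (δ : E m → Bool) uξ => badZ A h F ρ id (vr L Y Q dg (δ, uξ)) ∨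
      ∃ i j l : Fin m, badZ A h F ρ (plt (0, i, j) (1, j, l)) (vr L Y Q dg (δ, uξ)))
      (N + 1) c fun δ => ?_
    refine card_prod_le (fun (u : Fin k → (Fin k → Fin b) → Fin M) ξ =>
      badZ A h F ρ id (vr L Y Q dg (δ, u, ξ)) ∨
      ∃ i j l : Fin m, badZ A h F ρ (plt (0, i, j) (1, j, l)) (vr L Y Q dg (δ, u, ξ)))
      (N + 1) c fun u => ?_
    have hsub : (univ.filter fun ξ : E m → Fin (N + 1) =>
        badZ A h F ρ id (vr L Y Q dg (δ, u, ξ)) ∨
        ∃ i j l : Fin m, badZ A h F ρ (plt (0, i, j) (1, j, l)) (vr L Y Q dg (δ, u, ξ))) ⊆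
        (univ.filter fun ξ : E m → Fin (N + 1) =>
          badZ A h F ρ id (vr L Y Q dg (δ, u, ξ))) ∪
        (univ : Finset (Fin m × Fin m × Fin m)).biUnion fun t =>
          univ.filter fun ξ : E m → Fin (N + 1) =>
            badZ A h F ρ (plt (0, t.1, t.2.1) (1, t.2.1, t.2.2)) (vr L Y Q dg (δ, u, ξ)) := by
      intro ξ hξ
      rw [mem_union]
      rcases (mem_filter.1 hξ).2 with h5 | ⟨i, j, l, h6⟩
      · exact Or.inl (mem_filter.2 ⟨mem_univ _, h5⟩)
      · exact Or.inr (mem_biUnion.2 ⟨(i, j, l), mem_univ _, mem_filter.2 ⟨mem_univ _, h6⟩⟩)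
    set X := D * (3 * m ^ 2 * ((2 * d * K + 1) * a) * Fintype.card (E m → Fin (N + 1))) with hX
    have e1 := card_badZ_le (N := N) (L := L) (Y := Y) A h F hFd hQ ρ linT_id dg δ u
    have e2 : ∀ t : Fin m × Fin m × Fin m, (univ.filter fun ξ : E m → Fin (N + 1) =>
        badZ A h F ρ (plt (0, t.1, t.2.1) (1, t.2.1, t.2.2))
          (vr L Y Q dg (δ, u, ξ))).card * (N + 1) ≤ X :=
      fun t => card_badZ_le (N := N) A h F hFd hQ ρ (linT_plt _ _) dg δ u
    refine (Nat.mul_le_mul_right _ ((card_le_card hsub).trans ((card_union_le _ _).trans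
      (Nat.add_le_add_left card_biUnion_le _)))).trans ?_
    rw [add_mul, sum_mul]
    have e3 : ∑ t : Fin m × Fin m × Fin m, (univ.filter fun ξ : E m → Fin (N + 1) =>
        badZ A h F ρ (plt (0, t.1, t.2.1) (1, t.2.1, t.2.2))
          (vr L Y Q dg (δ, u, ξ))).card * (N + 1) ≤ m ^ 3 * X := by
      refine (sum_le_sum fun t _ => e2 t).trans ?_
      rw [sum_const, card_univ, smul_eq_mul]
      apply le_of_eq
      simp only [Fintype.card_prod, Fintype.card_fin]
      ring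
    calc _ ≤ X + m ^ 3 * X := Nat.add_le_add e1 e3
      _ = c * Fintype.card (E m → Fin (N + 1)) := by rw [hX, hc]; ring
  have hN : 0 < N + 1 := Nat.succ_pos _
  apply Nat.le_of_mul_le_mul_right _ hN
  calc _ = 256 * ((univ.filter fun ω : (E m → Fin k → Fin b) × Bg m k b M N =>
      badZ A h F ρ id (vr L Y Q ω.1 ω.2) ∨
      ∃ i j l : Fin m, badZ A h F ρ (plt (0, i, j) (1, j, l)) (vr L Y Q ω.1 ω.2)).card *
      (N + 1)) := by ring
    _ ≤ 256 * (c * Fintype.card ((E m → Fin k → Fin b) × Bg m k b M N)) :=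
        Nat.mul_le_mul_left _ key
    _ = (256 * c) * Fintype.card ((E m → Fin k → Fin b) × Bg m k b M N) := by ring
    _ ≤ (N + 1) * Fintype.card ((E m → Fin k → Fin b) × Bg m k b M N) :=
        Nat.mul_le_mul_right _ h4
    _ = _ := Nat.mul_comm _ _

/-- Nothing goes wrong with probability at least `47 / 48`. -/
theorem badP_card {t s L Y Q H : ℕ} {Λ : ℝ} (A : Alg n D W R (PolQ n d a) SignType)
    (h : 3 * m ≤ n) (F : Fin K → MvPolynomial (Fin n × Fin n) ℝ)
    (hFd : ∀ i, (F i).totalDegree ≤ d) (hd : 1 ≤ d) (hs : 2 * d * t ≤ s)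
    (hK : 256 * K ≤ 2 ^ t) (hN : 256 * K * d ^ 2 ≤ N + 1) (hM : 256 * K * (3 * s * d) ≤ M)
    (hL : 2 * N + 2 ≤ L) (hY : M ≤ Y) (hY1 : 1 ≤ Y) (hH : (3 * m ^ 2 + 1) ^ d ≤ H)
    (hΛ : (acC d : ℝ) * H * (L * (Y : ℝ) ^ k) ≤ Λ)
    (hQ : 2 * (acC d : ℝ) * H * Λ ^ d ≤ Q) (hQ1 : 1 ≤ Q)
    (h4 : 256 * ((1 + m ^ 3) * (D * (3 * m ^ 2 * ((2 * d * K + 1) * a)))) ≤ N + 1)
    (ρ : Fin R → Bool) :
    48 * (BadP (k := k) (b := b) (M := M) (N := N) A h F s L Y Q Λ ρ).card ≤
      Fintype.card ((E m → Fin k → Fin b) × Bg m k b M N) := by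
  classical
  have a1 := card_badF (k := k) (b := b) (M := M) (N := N) h F hFd hd hs hK hN hM hL hY hY1
    hH hΛ hQ
  have a2 := card_badNQ (k := k) (b := b) (M := M) (N := N) A h F hFd
    (L := L) (Y := Y) hQ1 ρ h4
  have hsub : BadP (k := k) (b := b) (M := M) (N := N) A h F s L Y Q Λ ρ ⊆
      (univ.filter fun ω : (E m → Fin k → Fin b) × Bg m k b M N =>
        badF h F s L Y Q Λ ω.1 ω.2) ∪
      (univ.filter fun ω : (E m → Fin k → Fin b) × Bg m k b M N =>
        badZ A h F ρ id (vr L Y Q ω.1 ω.2) ∨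
        ∃ i j l : Fin m, badZ A h F ρ (plt (0, i, j) (1, j, l)) (vr L Y Q ω.1 ω.2)) := by
    intro ω hω
    rw [mem_union, mem_filter, mem_filter]
    rcases (mem_filter.1 hω).2 with h5 | h5
    · exact Or.inl ⟨mem_univ _, h5⟩
    · exact Or.inr ⟨mem_univ _, h5⟩
  have h6 := (card_le_card hsub).trans (card_union_le _ _)
  omega

end Pool.Agent.Helper8.PQ
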