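import Mathlib

set_option autoImplicit false

/-!
# Sign vectors of polynomials on lines
-/

namespace Pool.Agent.Helper8.PQ

open Finset

/-- If the signs of `P` at `c` and `c + 1` differ, then `P` has a root in `[c, c + 1]`. -/
private theorem root_of_change (P : Polynomial ℝ) (c : ℕ)
    (h : SignType.sign (P.eval (c : ℝ)) ≠ SignType.sign (P.eval ((c + 1 : ℕ) : ℝ))) :
    ∃ r : ℝ, P.eval r = 0 ∧ (c : ℝ) ≤ r ∧ r ≤ (c : ℝ) + 1 := by
  have hle : (c : ℝ) ≤ ((c + 1 : ℕ) : ℝ) := by push_cast; linarith
  have hcont : ContinuousOn (fun x => P.eval x) (Set.Icc (c : ℝ) ((c + 1 : ℕ) : ℝ)) :=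
    P.continuous.continuousOn
  have hmem : (0 : ℝ) ∈ Set.uIcc (P.eval (c : ℝ)) (P.eval ((c + 1 : ℕ) : ℝ)) := by
    rw [Set.mem_uIcc]
    rcases lt_trichotomy (P.eval (c : ℝ)) 0 with h1 | h1 | h1
    · left
      refine ⟨h1.le, ?_⟩
      by_contra h2
      rw [not_le] at h2
      exact h (by rw [sign_neg h1, sign_neg h2])
    · rcases le_total 0 (P.eval ((c + 1 : ℕ) : ℝ)) with h2 | h2
      · exact Or.inl ⟨h1.le, h2⟩
      · exact Or.inr ⟨h2, h1.ge⟩
    · right
      refine ⟨?_, h1.le⟩
      by_contra h2
      rw [not_le] at h2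
      exact h (by rw [sign_pos h1, sign_pos h2])
  have hIVT := intermediate_value_uIcc (a := (c : ℝ)) (b := ((c + 1 : ℕ) : ℝ))
    (f := fun x => P.eval x) (by rwa [Set.uIcc_of_le hle])
  obtain ⟨r, hr, hr0⟩ := hIVT hmem
  rw [Set.uIcc_of_le hle, Set.mem_Icc] at hr
  refine ⟨r, hr0, hr.1, ?_⟩
  have := hr.2
  push_cast at this
  exact this

/-- The sign of a polynomial changes rarely (compare `Pool.Agent.Helper8.FT.changes_le`): if
the signs at `c` and `c + 1` differ, there is a root in `[c, c + 1]`, and every root lies in at most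
two such intervals. -/
theorem changes_poly (N d : ℕ) (P : Polynomial ℝ) (hP : P.natDegree ≤ d) :
    ((range N).filter fun c : ℕ => SignType.sign (P.eval (c : ℝ)) ≠
      SignType.sign (P.eval ((c + 1 : ℕ) : ℝ))).card ≤ 2 * d := by
  classical
  rcases eq_or_ne P 0 with h0 | h0
  · subst h0
    simp
  · set Ch : Finset ℕ := (range N).filter fun c : ℕ => SignType.sign (P.eval (c : ℝ)) ≠
      SignType.sign (P.eval ((c + 1 : ℕ) : ℝ)) with hCh
    have hroot : ∀ c ∈ Ch, ∃ r : ℝ, P.eval r = 0 ∧ (c : ℝ) ≤ r ∧ r ≤ (c : ℝ) + 1 := by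
      intro c hc
      rw [hCh, mem_filter] at hc
      exact root_of_change P c hc.2
    choose! r hr0 hr1 hr2 using hroot
    have hmaps : ∀ c ∈ Ch, r c ∈ P.roots.toFinset := by
      intro c hc
      rw [Multiset.mem_toFinset, Polynomial.mem_roots h0, Polynomial.IsRoot.def]
      exact hr0 c hc
    have hfib : ∀ ρ ∈ P.roots.toFinset, (Ch.filter fun c => r c = ρ).card ≤ 2 := by
      intro ρ _
      rcases (Ch.filter fun c => r c = ρ).eq_empty_or_nonempty with he | hne
      · rw [he]; simp
      · set c0 := (Ch.filter fun c => r c = ρ).min' hne with hc0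
        have hc0m := min'_mem _ hne
        rw [← hc0, mem_filter] at hc0m
        have hsub : (Ch.filter fun c => r c = ρ) ⊆ {c0, c0 + 1} := by
          intro c hc
          have hle : c0 ≤ c := min'_le _ _ hc
          rw [mem_filter] at hc
          have h1 : (c : ℝ) ≤ (c0 : ℝ) + 1 := by
            have e1 := hr1 c hc.1
            have e2 := hr2 c0 hc0m.1
            rw [hc.2] at e1
            rw [hc0m.2] at e2
            exact e1.trans e2
          have h2 : c ≤ c0 + 1 := by exact_mod_cast h1
          rw [mem_insert, mem_singleton]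
          omega
        exact (card_le_card hsub).trans card_le_two
    calc Ch.card ≤ 2 * P.roots.toFinset.card :=
          card_le_mul_card_image_of_maps_to hmaps 2 hfib
      _ ≤ 2 * d := Nat.mul_le_mul_left 2
          ((Multiset.toFinset_card_le _).trans ((Polynomial.card_roots' P).trans hP))

/-- Polynomials have few sign vectors on an interval of integers (proof as for
`Pool.Agent.Helper8.FT.signs_card`). -/
theorem signs_card_poly {Q : Type} [Fintype Q] (N d : ℕ) (P : Q → Polynomial ℝ)
    (hP : ∀ q, (P q).natDegree ≤ d) :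
    ∃ T : Finset (Q → SignType), T.card ≤ 2 * d * Fintype.card Q + 1 ∧
      ∀ c : Fin (N + 1), (fun q => SignType.sign ((P q).eval ((c : ℕ) : ℝ))) ∈ T := by
  classical
  set v : ℕ → Q → SignType := fun c q => SignType.sign ((P q).eval (c : ℝ)) with hv
  set Ch : Finset ℕ := (range N).filter fun c => v c ≠ v (c + 1) with hCh
  have hcard : Ch.card ≤ 2 * d * Fintype.card Q := by
    have hsub : Ch ⊆ (univ : Finset Q).biUnion fun q => (range N).filter fun c : ℕ =>
        SignType.sign ((P q).eval (c : ℝ)) ≠
          SignType.sign ((P q).eval ((c + 1 : ℕ) : ℝ)) := by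
      intro c hc
      rw [hCh, mem_filter] at hc
      obtain ⟨hc1, hc2⟩ := hc
      rw [Function.ne_iff] at hc2
      obtain ⟨q, hq⟩ := hc2
      rw [mem_biUnion]
      exact ⟨q, mem_univ q, mem_filter.mpr ⟨hc1, hq⟩⟩
    calc Ch.card ≤ _ := card_le_card hsub
      _ ≤ ∑ q : Q, _ := card_biUnion_le
      _ ≤ ∑ _q : Q, 2 * d := sum_le_sum fun q _ => changes_poly N d (P q) (hP q)
      _ = 2 * d * Fintype.card Q := by
        rw [sum_const, card_univ, smul_eq_mul, mul_comm]
  refine ⟨insert (v 0) (Ch.image fun c => v (c + 1)), ?_, ?_⟩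
  · calc _ ≤ (Ch.image fun c => v (c + 1)).card + 1 := card_insert_le _ _
      _ ≤ Ch.card + 1 := Nat.add_le_add_right card_image_le 1
      _ ≤ 2 * d * Fintype.card Q + 1 := Nat.add_le_add_right hcard 1
  · have key : ∀ c : ℕ, c ≤ N → v c ∈ insert (v 0) (Ch.image fun c => v (c + 1)) := by
      intro c
      induction c with
      | zero => intro _; exact mem_insert_self _ _
      | succ c ih =>
        intro hc
        by_cases h : v c = v (c + 1)
        · rw [← h]; exact ih (by omega)
        · refine mem_insert_of_mem (mem_image.mpr ⟨c, ?_, rfl⟩)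
          rw [hCh, mem_filter, mem_range]
          exact ⟨by omega, h⟩
    intro c
    exact key c (by have := c.isLt; omega)

/-- A polynomial in several variables is a polynomial on every line (compare
`Pool.Agent.Helper50.ZT.lineOK_pev`). -/
theorem exists_line_poly {ι : Type} [Fintype ι] (p : MvPolynomial ι ℝ) {d : ℕ}
    (hp : p.totalDegree ≤ d) (u v : ι → ℝ) :
    ∃ P : Polynomial ℝ, P.natDegree ≤ d ∧
      ∀ c : ℝ, P.eval c = MvPolynomial.eval (fun i => u i + c * v i) p := by
  classical
  set g : ι → Polynomial ℝ := fun i =>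
    Polynomial.C (u i) + Polynomial.C (v i) * Polynomial.X with hg
  refine ⟨MvPolynomial.aeval g p, ?_, ?_⟩
  · have := MvPolynomial.aeval_natDegree_le (m := d) (n := 1) p hp g (fun i => by
        simp only [hg]
        compute_degree)
    simpa using this
  · intro c
    have h1 : (MvPolynomial.aeval g p).eval c =
        MvPolynomial.aeval (fun i => (g i).eval c) p := by
      have := MvPolynomial.comp_aeval_apply (R := ℝ) g (Polynomial.aeval c) p
      rw [Polynomial.coe_aeval_eq_eval] at this
      exact this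
    rw [h1, MvPolynomial.aeval_eq_eval]
    congr 2
    funext i
    simp only [hg, Polynomial.eval_add, Polynomial.eval_C, Polynomial.eval_mul, Polynomial.eval_X]
    ring

end Pool.Agent.Helper8.PQ
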