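import Pool.Agent.Helper8.PQ.RunDefs
import Pool.Agent.Helper8.PQ.Lines
import Pool.Agent.Helper8.PQ.Inst

set_option autoImplicit false

/-!
# Exceptional answers of zero tests are rare
-/

namespace Pool.Agent.Helper8.PQ

open Finset
open Pool.Agent.Helper22.ETModel Pool.Agent.Helper22.TSModel Pool.Agent.Helper22.EP
open Pool.Agent.Helper23.SP (pre sg)
open Pool.Agent.Helper8.ZT (pev covp LineOK adaptive_sz)
open Pool.Agent.Helper21.DS (mt DProc strc cove)

variable {m n k b M N d a D W R K : ℕ} [NeZero b]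

/-- The fixed part of the values. -/
def bs (L Y : ℕ) (dg : E m → Fin k → Fin b) (δ : E m → Bool)
    (u : Fin k → (Fin k → Fin b) → Fin M) (e : E m) : ℝ :=
  (((if δ e = true then 0 else (L : ℤ) * strc Y u (dg e)) + par e : ℤ) : ℝ)

/-- The scale of the noise. -/
def kp (Q : ℕ) (δ : E m → Bool) (e : E m) : ℝ := if δ e = true then (Q : ℝ) else 2

lemma vr_eq (L Y Q : ℕ) (dg : E m → Fin k → Fin b) (δ : E m → Bool)
    (u : Fin k → (Fin k → Fin b) → Fin M) (ξ : E m → Fin (N + 1)) (e : E m) :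
    vr L Y Q dg (δ, u, ξ) e = bs L Y dg δ u e + kp Q δ e * ((ξ e : ℕ) : ℝ) := by
  unfold vr vl bs kp
  by_cases h : δ e = true
  · rw [if_pos h, if_pos h, if_pos h]
    push_cast
    ring
  · rw [if_neg h, if_neg h, if_neg h]
    push_cast
    ring

/-- `T` is linear on lines. -/
def LinT (T : (E m → ℝ) → E m → ℝ) : Prop :=
  ∀ (u v : E m → ℝ) (c : ℝ), T (fun e => u e + c * v e) = fun e => T u e + c * T v e

lemma linT_id : LinT (m := m) id := fun _ _ _ => rfl

lemma linT_plt (x y : E m) : LinT (plt x y) := by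
  intro u v c
  funext e
  unfold plt
  by_cases he : e = x
  · rw [he, Function.update_self, Function.update_self, Function.update_self]
  · rw [Function.update_of_ne he, Function.update_of_ne he, Function.update_of_ne he]

/-- The polynomial in the query number `t`, when the answers to all sign queries are given by `x`
(zero for sign queries), as a function of twice the noise. -/
noncomputable def phi (A : Alg n D W R (PolQ n d a) SignType) (h : 3 * m ≤ n)
    (ρ : Fin R → Bool) (F : Fin K → MvPolynomial (Fin n × Fin n) ℝ)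
    (T : (E m → ℝ) → E m → ℝ) (b0 k0 : E m → ℝ) (t : ℕ) (x : Fin K → SignType)
    (y : E m → ℝ) : ℝ :=
  match A.ask (flagOf h) ρ t (fstA A h ρ F x t) with
  | .sign _ _ => 0
  | .zero f _ => pev h f (T fun e => b0 e + k0 e / 2 * y e)

lemma lineOK_phi (A : Alg n D W R (PolQ n d a) SignType) (h : 3 * m ≤ n)
    (ρ : Fin R → Bool) (F : Fin K → MvPolynomial (Fin n × Fin n) ℝ)
    {T : (E m → ℝ) → E m → ℝ} (hT : LinT T) (b0 k0 : E m → ℝ) (t : ℕ) (x : Fin K → SignType) :
    LineOK (phi A h ρ F T b0 k0 t x) a := by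
  have key : ∀ q : PolQ n d a, LineOK (fun y : E m → ℝ =>
      (match q with
      | .sign _ _ => (0 : ℝ)
      | .zero f _ => pev h f (T fun e => b0 e + k0 e / 2 * y e))) a := by
    intro q
    cases q with
    | sign f hf => exact fun _ _ => Or.inl fun _ => rfl
    | zero f hf =>
      intro u v
      have h1 := Pool.Agent.Helper50.ZT.lineOK_pev h f hf
        (T fun e => b0 e + k0 e / 2 * u e) (T fun e => k0 e / 2 * v e)
      have h2 : ∀ c : ℝ, (fun e => (T fun e => b0 e + k0 e / 2 * u e) e +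
          c * (T fun e => k0 e / 2 * v e) e) =
          T fun e => b0 e + k0 e / 2 * (u e + c * v e) := by
        intro c
        rw [← hT]
        congr 1
        funext e
        ring
      simp only [h2] at h1
      exact h1
  exact key _

lemma phi_of_zero (A : Alg n D W R (PolQ n d a) SignType) (h : 3 * m ≤ n)
    (ρ : Fin R → Bool) (F : Fin K → MvPolynomial (Fin n × Fin n) ℝ)
    (T : (E m → ℝ) → E m → ℝ) (b0 k0 : E m → ℝ) (t : ℕ) (x : Fin K → SignType)
    {f : MvPolynomial (Fin n × Fin n) ℝ} {hf : f.totalDegree ≤ a}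
    (hq : A.ask (flagOf h) ρ t (fstA A h ρ F x t) = .zero f hf) (y : E m → ℝ) :
    phi A h ρ F T b0 k0 t x y = pev h f (T fun e => b0 e + k0 e / 2 * y e) := by
  unfold phi
  rw [hq]

lemma card_E (m : ℕ) : Fintype.card (E m) = 3 * m ^ 2 := by
  simp only [E, Fintype.card_prod, Fintype.card_fin]
  ring

/-- On a line there are few different vectors of signs. -/
lemma line_signs (h : 3 * m ≤ n) (F : Fin K → MvPolynomial (Fin n × Fin n) ℝ)
    (hFd : ∀ i, (F i).totalDegree ≤ d) (N : ℕ) (u v : E m → ℝ) :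
    ∃ S : Finset (Fin K → SignType), S.card ≤ 2 * d * K + 1 ∧
      ∀ c : Fin (N + 1), sgv h F (fun e => u e + ((c : ℕ) : ℝ) * v e) ∈ S := by
  choose P hP1 hP2 using fun i => exists_line_poly (qp h (F i))
    ((totalDegree_qp h (F i)).trans (hFd i)) u v
  obtain ⟨S, hS, hmem⟩ := signs_card_poly N d P hP1
  rw [Fintype.card_fin] at hS
  refine ⟨S, hS, fun c => ?_⟩
  convert hmem c using 1
  funext i
  unfold sgv
  rw [hP2, eval_qp]

open Classical in
/-- Exceptional answers are rare. -/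
theorem card_badZ_le (A : Alg n D W R (PolQ n d a) SignType) (h : 3 * m ≤ n)
    (F : Fin K → MvPolynomial (Fin n × Fin n) ℝ) (hFd : ∀ i, (F i).totalDegree ≤ d)
    {L Y Q : ℕ} (hQ : 1 ≤ Q) (ρ : Fin R → Bool) {T : (E m → ℝ) → E m → ℝ} (hT : LinT T)
    (dg : E m → Fin k → Fin b) (δ : E m → Bool) (u : Fin k → (Fin k → Fin b) → Fin M) :
    (univ.filter (fun ξ : E m → Fin (N + 1) =>
      badZ A h F ρ T (vr L Y Q dg (δ, u, ξ)))).card * (N + 1) ≤
      D * (3 * m ^ 2 * ((2 * d * K + 1) * a) * Fintype.card (E m → Fin (N + 1))) := by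
  have hkp : ∀ e : E m, kp Q δ e / 2 ≠ 0 := by
    intro e
    unfold kp
    have hQr : (0 : ℝ) < Q := by exact_mod_cast hQ
    split_ifs
    · positivity
    · norm_num
  have hpt : ∀ ξ : E m → Fin (N + 1), (fun e => bs L Y dg δ u e +
      kp Q δ e / 2 * (0 + 2 * ((ξ e : ℕ) : ℝ))) = vr L Y Q dg (δ, u, ξ) := by
    intro ξ
    funext e
    rw [vr_eq]
    ring
  have hsub : univ.filter (fun ξ : E m → Fin (N + 1) =>
      badZ A h F ρ T (vr L Y Q dg (δ, u, ξ))) ⊆
      (range D).biUnion (fun t => univ.filter (fun ξ : E m → Fin (N + 1) =>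
        (∃ y, phi A h ρ F T (bs L Y dg δ u) (kp Q δ) t
          (sgv h F (T (vr L Y Q dg (δ, u, ξ)))) y ≠ 0) ∧
        phi A h ρ F T (bs L Y dg δ u) (kp Q δ) t (sgv h F (T (vr L Y Q dg (δ, u, ξ))))
          (fun e => 0 + 2 * ((ξ e : ℕ) : ℝ)) = 0)) := by
    intro ξ hξ
    obtain ⟨t, ht, f, hf, hq, hex, hz⟩ := (mem_filter.1 hξ).2
    rw [mem_biUnion]
    refine ⟨t, mem_range.2 ht, mem_filter.2 ⟨mem_univ _, ?_, ?_⟩⟩
    · obtain ⟨y, hy⟩ := hex
      refine ⟨fun e => (y e - bs L Y dg δ u e) / (kp Q δ e / 2), ?_⟩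
      rw [phi_of_zero A h ρ F T _ _ t _ hq]
      have e1 : (fun e => bs L Y dg δ u e + kp Q δ e / 2 *
          ((y e - bs L Y dg δ u e) / (kp Q δ e / 2))) = y := by
        funext e
        rw [mul_div_cancel₀ _ (hkp e)]
        ring
      rw [e1]
      exact hy
    · rw [phi_of_zero A h ρ F T _ _ t _ hq, hpt]
      exact hz
  refine (Nat.mul_le_mul_right _ ((card_le_card hsub).trans card_biUnion_le)).trans ?_
  rw [sum_mul]
  refine (sum_le_card_nsmul _ _ _ ?_).trans (by rw [card_range, smul_eq_mul])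
  intro t _
  rw [← card_E m]
  apply adaptive_sz N (2 * d * K + 1) a
    (fun ξ => sgv h F (T (vr L Y Q dg (δ, u, ξ)))) _
    (phi A h ρ F T (bs L Y dg δ u) (kp Q δ) t)
    (lineOK_phi A h ρ F hT (bs L Y dg δ u) (kp Q δ) t) (fun _ => 0)
  · intro ξ hξ
    exact (mem_filter.1 hξ).2
  · intro j ξ
    obtain ⟨S, hS, hmem⟩ := line_signs h F hFd N
      (T fun e => if e = j then bs L Y dg δ u e else vr L Y Q dg (δ, u, ξ) e)
      (T fun e => if e = j then kp Q δ e else 0)
    refine ⟨S, hS, fun c => ?_⟩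
    convert hmem c using 2
    rw [← hT]
    congr 1
    funext e
    by_cases he : e = j
    · subst he
      rw [if_pos rfl, if_pos rfl, vr_eq, Function.update_self]
      ring
    · rw [if_neg he, if_neg he, vr_eq, vr_eq, Function.update_of_ne he]
      ring

end Pool.Agent.Helper8.PQ
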