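import Pool.Agent.Helper8.PQ.Defs
import Pool.Agent.Helper59.PL.Pivot

set_option autoImplicit false

/-!
# The number of pivotal variables
-/

namespace Pool.Agent.Helper8.PQ

open Finset

variable {ι : Type} [Fintype ι] [DecidableEq ι]

/-- The magnitude is a weight of a monomial. -/
theorem mag_eq_wtm (q Λ : ℝ) (p : MvPolynomial ι ℝ) (δ : ι → Bool) (μ : ι →₀ ℕ) :
    mag q Λ p δ μ = Pool.Agent.Helper59.PL.wtm q (fun (μ : ι →₀ ℕ) e => μ e)
      (fun μ => |p.coeff μ| * Λ ^ μ.degree) (univ.filter fun e => δ e = true) μ := by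
  unfold mag Pool.Agent.Helper59.PL.wtm dgd
  rw [sum_filter]
  ring

theorem piv_sub (q Λ : ℝ) (p : MvPolynomial ι ℝ) (δ : ι → Bool) :
    piv q Λ p δ ⊆ Pool.Agent.Helper59.PL.piv p.support
      (Pool.Agent.Helper59.PL.wtm q (fun (μ : ι →₀ ℕ) e => μ e)
        (fun μ => |p.coeff μ| * Λ ^ μ.degree)) (univ.filter fun e => δ e = true) := by
  classical
  intro e he
  unfold piv at he
  rw [mem_filter] at he
  obtain ⟨-, he1, μ, hμ, hlt⟩ := he
  unfold Pool.Agent.Helper59.PL.piv
  rw [mem_filter]
  refine ⟨mem_univ _, by simp [he1], μ, hμ, ?_⟩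
  intro μ' hμ'
  have h1 := hlt μ' hμ'
  rw [mag_eq_wtm, mag_eq_wtm] at h1
  have h2 : (univ.filter fun x => Function.update δ e true x = true) =
      insert e (univ.filter fun x => δ x = true) := by
    ext x
    rw [mem_filter, mem_insert, mem_filter]
    by_cases hx : x = e
    · subst hx
      simp
    · simp [hx]
  rw [h2] at h1
  exact h1

open Classical in
/-- Encoding: `(D, T)` with `T` a set of `t` pivotal variables for `D` is determined by `D ∪ T` and
`t` numbers in `[d]` (the first monomial of maximal magnitude for `D ∪ T` contains a variable of `T`;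
say which one of its at most `d` variables, remove it, and repeat). So
`∑ over D of (|piv D| choose t) ≤ 2 ^ |ι| * d ^ t`, and `(2 d t choose t) ≥ (2 d) ^ t`. -/
theorem card_piv {q Λ : ℝ} (hq : 1 ≤ q) (hΛ : 0 ≤ Λ) (p : MvPolynomial ι ℝ) {d : ℕ}
    (hp : p.totalDegree ≤ d) (t : ℕ) :
    (univ.filter fun δ : ι → Bool => 2 * d * t < (piv q Λ p δ).card).card * 2 ^ t ≤
      Fintype.card (ι → Bool) := by
  have hdeg : ∀ μ ∈ p.support, (univ.filter fun e => μ e ≠ 0).card ≤ d := by
    intro μ hμ
    have h1 : (univ.filter fun e => μ e ≠ 0) = μ.support := by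
      ext e
      simp
    have h2 : μ.support.card ≤ μ.degree := by
      rw [Finsupp.degree_eq_sum, ← Finset.sum_subset (subset_univ μ.support)
        (fun x _ hx => by simpa using hx), card_eq_sum_ones]
      apply sum_le_sum
      intro e he
      exact Nat.one_le_iff_ne_zero.2 (Finsupp.mem_support_iff.1 he)
    have h3 : μ.degree ≤ p.totalDegree := by
      have := MvPolynomial.le_totalDegree hμ
      rw [Finsupp.degree_apply]
      exact this
    rw [h1]
    omega
  rcases Nat.eq_zero_or_pos d with hd0 | hd0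
  · have h1 : (univ.filter fun δ : ι → Bool => 2 * d * t < (piv q Λ p δ).card) = ∅ := by
      rw [filter_eq_empty_iff]
      intro δ _
      have h2 : piv q Λ p δ = ∅ := by
        unfold piv
        rw [filter_eq_empty_iff]
        rintro e - ⟨he, μ, hμ, hlt⟩
        have h3 := hlt μ hμ
        have h4 : ∀ x, μ x = 0 := by
          intro x
          by_contra hx
          have h5 := hdeg μ hμ
          rw [hd0] at h5
          have h6 : x ∈ (univ.filter fun e => μ e ≠ 0) := by simp [hx]
          rw [Nat.le_zero, card_eq_zero] at h5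
          rw [h5] at h6
          simp at h6
        have h5 : ∀ δ : ι → Bool, dgd δ μ = 0 := by
          intro δ
          unfold dgd
          simp [h4]
        unfold mag at h3
        rw [h5, h5] at h3
        exact lt_irrefl _ h3
      rw [h2]
      simp
    rw [h1]
    simp
  · have h1 := Pool.Agent.Helper59.PL.card_piv_wtm (E := ι) (P := p.support) hq
      (ex := fun (μ : ι →₀ ℕ) e => μ e) (A := fun μ => |p.coeff μ| * Λ ^ μ.degree)
      (fun μ _ => mul_nonneg (abs_nonneg _) (pow_nonneg hΛ _)) hdeg hd0 t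
    have h2 : Fintype.card (ι → Bool) = 2 ^ Fintype.card ι := by simp
    rw [h2]
    refine le_trans (Nat.mul_le_mul_right _ (card_le_card ?_)) h1
    intro δ hδ
    rw [mem_filter] at hδ ⊢
    exact ⟨mem_univ _, hδ.2.le.trans (card_le_card (piv_sub q Λ p δ))⟩

end Pool.Agent.Helper8.PQ
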