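import Pool.Agent.Helper8.PQ.Main

set_option autoImplicit false

/-!
# The bounds after the choice of the scales
-/

namespace Pool.Agent.Helper8.PQ

open Finset
open Pool.Agent.Helper22.ETModel Pool.Agent.Helper22.TSModel Pool.Agent.Helper22.EP

variable {m n k M N d a D W R K c : ℕ}

/-- The scales. -/
structure Scales (n k d N M c : ℕ) (H L Q : ℕ) (Λ : ℝ) : Prop where
  hH : ∀ m, 3 * m ≤ n → (3 * m ^ 2 + 1) ^ d ≤ H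
  hL : 2 * N + 2 ≤ L
  hΛ : (acC d : ℝ) * H * (L * (M : ℝ) ^ k) ≤ Λ
  hQ : 2 * (acC d : ℝ) * H * Λ ^ d ≤ Q
  hQ1 : 1 ≤ Q
  hLe : Even L
  hQe : Even Q
  hLQ : L * M ^ k ≤ Q
  hQn : Q * (N + 1) ≤ n ^ c

/-- The choice of the scales. -/
theorem scales (hn : 3 ≤ n) (hd : 1 ≤ d) (hM1 : 1 ≤ M)
    (hsz : 2 * acC d * n ^ (2 * d) * (acC d * n ^ (2 * d) * ((2 * N + 2) * M ^ k)) ^ d * (N + 1) ≤
      n ^ c) :
    ∃ (H L Q : ℕ) (Λ : ℝ), Scales n k d N M c H L Q Λ := by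
  have hc := one_le_acC d
  have hnd : 1 ≤ n ^ (2 * d) := Nat.one_le_pow _ _ (by omega)
  have hMk : 1 ≤ M ^ k := Nat.one_le_pow _ _ hM1
  obtain ⟨V, hV⟩ : ∃ V, V = (2 * N + 2) * M ^ k := ⟨_, rfl⟩
  have hV1 : 1 ≤ V := by
    rw [hV]; exact Nat.mul_pos (by omega) hMk
  obtain ⟨Λ, hΛ⟩ : ∃ Λ, Λ = acC d * n ^ (2 * d) * V := ⟨_, rfl⟩
  have hΛV : V ≤ Λ := by
    rw [hΛ]; exact Nat.le_mul_of_pos_left _ (Nat.mul_pos hc hnd)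
  have hΛ1 : 1 ≤ Λ := hV1.trans hΛV
  have hΛd : Λ ≤ Λ ^ d := Nat.le_self_pow (by omega) _
  refine ⟨n ^ (2 * d), 2 * N + 2, 2 * acC d * n ^ (2 * d) * Λ ^ d, (Λ : ℝ), ?_, le_rfl, ?_, ?_,
    ?_, ⟨N + 1, by ring⟩, ⟨acC d * n ^ (2 * d) * Λ ^ d, by ring⟩, ?_, ?_⟩
  · intro m hm
    rw [pow_mul]
    apply Nat.pow_le_pow_left
    nlinarith
  · rw [hΛ, hV]
    push_cast
    exact le_rfl
  · push_cast
    exact le_rfl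
  · exact Nat.mul_pos (Nat.mul_pos (Nat.mul_pos (by norm_num) hc) hnd) (Nat.pow_pos hΛ1)
  · rw [← hV]
    calc V ≤ Λ := hΛV
      _ ≤ Λ ^ d := hΛd
      _ ≤ 2 * acC d * n ^ (2 * d) * Λ ^ d :=
          Nat.le_mul_of_pos_left _ (Nat.mul_pos (Nat.mul_pos (by norm_num) hc) hnd)
  · rw [hΛ, hV]
    exact hsz

/-- The noise is large enough for the zero tests. -/
theorem noise_ok (h : 3 * m ≤ n) (hD : D ≤ n ^ 3)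
    (hN2 : 8 * n ^ 8 * ((2 * d * K + 1) * a) ≤ N) :
    256 * ((1 + m ^ 3) * (D * (3 * m ^ 2 * ((2 * d * K + 1) * a)))) ≤ N + 1 := by
  rcases Nat.eq_zero_or_pos m with hm | hm
  · subst hm
    simp
  have h1 : 1 + m ^ 3 ≤ 2 * m ^ 3 := by
    have : 1 ≤ m ^ 3 := Nat.one_le_pow _ _ hm
    omega
  have h2 : 243 * m ^ 5 ≤ n ^ 5 := by
    calc 243 * m ^ 5 = (3 * m) ^ 5 := by ring
      _ ≤ n ^ 5 := Nat.pow_le_pow_left h 5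
  set X := (2 * d * K + 1) * a
  calc 256 * ((1 + m ^ 3) * (D * (3 * m ^ 2 * X)))
      ≤ 256 * ((2 * m ^ 3) * (n ^ 3 * (3 * m ^ 2 * X))) :=
        Nat.mul_le_mul_left _ (Nat.mul_le_mul h1 (Nat.mul_le_mul_right _ hD))
    _ = 1536 * m ^ 5 * (n ^ 3 * X) := by ring
    _ ≤ (8 * n ^ 5) * (n ^ 3 * X) := Nat.mul_le_mul_right _ (by omega)
    _ = 8 * n ^ 8 * X := by ring
    _ ≤ N := hN2
    _ ≤ N + 1 := Nat.le_succ _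

/-- The main bound. -/
theorem main_bound' {β l r0 Nw t1 t s x : ℕ} (hn : 3 ≤ n) (h : 3 * m ≤ n) (hβ : 1 ≤ β)
    (ht : 1 ≤ t) (hl1 : 1 ≤ l) (hl : s * l ≤ x) (hs1 : 1 ≤ s) (hk : 1 ≤ k)
    (hbk : 2 * (60 * β * t) ^ k ≤ m) (hmt : m ≤ 2 ^ t) (hr0 : r0 ≤ k)
    (hr01 : 20 * x * β ≤ (60 * β * t) ^ r0)
    (hNw : D ≤ Nw * (l * β ^ (k - r0))) (hNw' : Nw * (l * β ^ (k - r0)) ≤ D + m)
    (hx : 192 * ((D + m) * W * k) ≤ 2 ^ x)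
    (ha : 2 * a ≤ s) (hd : 1 ≤ d) (hs : 2 * d * t1 ≤ s)
    (hK : 256 * K ≤ 2 ^ t1) (hN : 256 * K * d ^ 2 ≤ N)
    (hN2 : 8 * n ^ 8 * ((2 * d * K + 1) * a) ≤ N) (hM : 768 * K * s * d ≤ M) (hM1 : 1 ≤ M)
    (hsz : 2 * acC d * n ^ (2 * d) * (acC d * n ^ (2 * d) * ((2 * N + 2) * M ^ k)) ^ d * (N + 1) ≤
      n ^ c) (hD : D ≤ n ^ 3)
    (A : Alg n D W R (PolQ n d a) SignType) (hA : DecidesC A (polFam n d a) c)
    (hAK : FewSigns A K) :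
    m ^ 2 ≤ 192 * x * Nw := by
  obtain ⟨H, L, Q, Λ, hS⟩ := scales hn hd hM1 hsz
  exact main_bound h hβ ht hl1 hl hs1 hk hbk hmt hr0 hr01 hNw hNw' hx ha hd hs hK
    (hN.trans (Nat.le_succ _)) (by
      calc 256 * K * (3 * s * d) = 768 * K * s * d := by ring
        _ ≤ M := hM) hS.hL le_rfl hM1 (hS.hH m h) hS.hΛ hS.hQ hS.hQ1
    (noise_ok h hD hN2) hS.hLe hS.hQe hS.hLQ hS.hQn A hA hAK

/-- The quadratic bound. -/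
theorem trivial_bound' {t1 s : ℕ} (hn : 3 ≤ n) (h : 3 * m ≤ n) (hm : 2 ≤ m) (hk : 1 ≤ k)
    (ha : 2 * a ≤ s) (hd : 1 ≤ d) (hs : 2 * d * t1 ≤ s)
    (hK : 256 * K ≤ 2 ^ t1) (hN : 256 * K * d ^ 2 ≤ N)
    (hN2 : 8 * n ^ 8 * ((2 * d * K + 1) * a) ≤ N) (hM : 768 * K * s * d ≤ M) (hM1 : 1 ≤ M)
    (hsz : 2 * acC d * n ^ (2 * d) * (acC d * n ^ (2 * d) * ((2 * N + 2) * M ^ k)) ^ d * (N + 1) ≤
      n ^ c) (hD : D ≤ n ^ 3)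
    (A : Alg n D W R (PolQ n d a) SignType) (hA : DecidesC A (polFam n d a) c)
    (hAK : FewSigns A K) :
    m ^ 2 ≤ 16 * s * D := by
  obtain ⟨H, L, Q, Λ, hS⟩ := scales hn hd hM1 hsz
  exact trivial_bound h hm hk ha hd hs hK
    (hN.trans (Nat.le_succ _)) (by
      calc 256 * K * (3 * s * d) = 768 * K * s * d := by ring
        _ ≤ M := hM) hS.hL le_rfl hM1 (hS.hH m h) hS.hΛ hS.hQ hS.hQ1
    (noise_ok h hD hN2) hS.hLe hS.hQe hS.hLQ hS.hQn A hA hAK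

end Pool.Agent.Helper8.PQ
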