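import Pool.Agent.Helper8.PQ.Final0
import Pool.Agent.Helper74.SP.Numeric2

set_option autoImplicit false

/-!
# The quantitative bound for the product of time and space
-/

namespace Pool.Agent.Helper8.PQ

open Finset
open Pool.Agent.Helper22.ETModel Pool.Agent.Helper22.TSModel Pool.Agent.Helper22.EP

variable {n M N d a D W R K c : ℕ}

/-- The quantitative bound, any memory. See `Pool.Agent.Helper21.DP.quantitative`. -/
theorem quantS {k s t1 x : ℕ} (hk : 1 ≤ k) (hkn : 12 * k ≤ n) (hs1 : 1 ≤ s) (hsx : s ≤ x)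
    (ha : 2 * a ≤ s) (hd : 1 ≤ d) (hs : 2 * d * t1 ≤ s) (hK : 256 * K ≤ 2 ^ t1)
    (hN : 256 * K * d ^ 2 ≤ N) (hN2 : 8 * n ^ 8 * ((2 * d * K + 1) * a) ≤ N)
    (hM : 768 * K * s * d ≤ M) (hM1 : 1 ≤ M)
    (hsz : 2 * acC d * n ^ (2 * d) * (acC d * n ^ (2 * d) * ((2 * N + 2) * M ^ (2 * k))) ^ d *
      (N + 1) ≤ n ^ c)
    (hx : 2 ^ 7 * n ^ 4 * W ≤ 2 ^ x)
    (A : Alg n D W R (PolQ n d a) SignType) (hA : DecidesC A (polFam n d a) c)
    (hAK : FewSigns A K) :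
    (n : ℝ) ^ (3 - 1 / (k : ℝ)) ≤ (2 ^ 15 * Real.logb 2 n) ^ (2 * k) * s * x * D := by
  obtain ⟨m, hmdef⟩ : ∃ m, m = n / 3 := ⟨_, rfl⟩
  obtain ⟨m', hm'def⟩ : ∃ m', m' = m / 2 := ⟨_, rfl⟩
  have hn3 : 3 ≤ n := by omega
  have h3m : 3 * m ≤ n := by omega
  have hm : 2 ≤ m := by omega
  have hm' : 1 ≤ m' := by omega
  have h2m' : 2 * m' ≤ m := by omega
  have hn11 : n ≤ 11 * m' := by omega
  have hx1 : 1 ≤ x := hs1.trans hsx
  have hn1 : (1 : ℝ) ≤ n := by exact_mod_cast (show 1 ≤ n by omega)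
  have hm1 : (1 : ℝ) ≤ m' := by exact_mod_cast hm'
  have hk1 : (1 : ℝ) ≤ k := by exact_mod_cast hk
  have hs1R : (1 : ℝ) ≤ s := by exact_mod_cast hs1
  have hxr : (1 : ℝ) ≤ x := by exact_mod_cast hx1
  have hD0 : (0 : ℝ) ≤ D := Nat.cast_nonneg D
  have hlogn : 1 ≤ Real.logb 2 n := by
    rw [Real.le_logb_iff_rpow_le (by norm_num) (by linarith), Real.rpow_one]
    have : (2 : ℝ) ≤ n := by exact_mod_cast (show 2 ≤ n by omega)
    linarith
  have hexp0 : 0 ≤ 3 - 1 / (k : ℝ) := by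
    have : 1 / (k : ℝ) ≤ 1 := by
      rw [div_le_one (by linarith)]; exact hk1
    linarith
  have hexp3 : 3 - 1 / (k : ℝ) ≤ 3 := by
    have : 0 ≤ 1 / (k : ℝ) := by positivity
    linarith
  -- large number of queries
  by_cases hD : n ^ 3 < D
  · have h1 : (n : ℝ) ^ (3 - 1 / (k : ℝ)) ≤ (n : ℝ) ^ (3 : ℝ) :=
      Real.rpow_le_rpow_of_exponent_le hn1 hexp3
    have h2 : (n : ℝ) ^ (3 : ℝ) ≤ D := by
      have : ((n ^ 3 : ℕ) : ℝ) ≤ D := by exact_mod_cast hD.le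
      push_cast at this
      calc (n : ℝ) ^ (3 : ℝ) = (n : ℝ) ^ (3 : ℕ) := by norm_cast
        _ ≤ D := this
    have h3 : (1 : ℝ) ≤ (2 ^ 15 * Real.logb 2 n) ^ (2 * k) := one_le_pow₀ (by nlinarith)
    have h4 : (1 : ℝ) ≤ (2 ^ 15 * Real.logb 2 n) ^ (2 * k) * s * x :=
      one_le_mul_of_one_le_of_one_le (one_le_mul_of_one_le_of_one_le h3 hs1R) hxr
    exact (h1.trans h2).trans (le_mul_of_one_le_left hD0 h4)
  push Not at hD
  have htriv := trivial_bound' (k := 2 * k) hn3 h3m hm (by omega) ha hd hs hK hN hN2 hM hM1 hsz hD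
    A hA hAK
  -- the parameter `t`
  obtain ⟨t, htdef⟩ : ∃ t, t = Nat.clog 2 m := ⟨_, rfl⟩
  have ht2 : m ≤ 2 ^ t := by rw [htdef]; exact Nat.le_pow_clog (by norm_num) _
  have ht1 : 1 ≤ t := by rw [htdef]; exact Nat.clog_pos (by norm_num) (by omega)
  have htle : (t : ℝ) ≤ 2 * Real.logb 2 n := by
    have h1 := Nat.pow_pred_clog_lt_self (b := 2) (x := m) (by norm_num) (by omega)
    rw [← htdef] at h1
    have h2 : (t : ℝ) - 1 ≤ Real.logb 2 n := by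
      rw [Real.le_logb_iff_rpow_le (by norm_num) (by positivity)]
      have h3 : ((2 ^ t.pred : ℕ) : ℝ) ≤ ((n : ℕ) : ℝ) := by
        have : 2 ^ t.pred ≤ n := h1.le.trans (by omega)
        exact_mod_cast this
      push_cast at h3
      calc (2 : ℝ) ^ ((t : ℝ) - 1) = (2 : ℝ) ^ t.pred := by
            rw [← Real.rpow_natCast]
            congr 1
            rw [Nat.pred_eq_sub_one, Nat.cast_sub ht1, Nat.cast_one]
        _ ≤ n := h3
    linarith
  have hsq : 4 * m' ^ 2 ≤ m ^ 2 := by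
    calc 4 * m' ^ 2 = (2 * m') ^ 2 := by ring
      _ ≤ m ^ 2 := Nat.pow_le_pow_left h2m' 2
  -- the bound for `m'`
  have hnum : (m' : ℝ) ^ (3 - 2 / ((2 * k : ℕ) : ℝ)) ≤
      6 * (120 * (t : ℝ)) ^ (2 * k) * s * x * D := by
    apply Pool.Agent.Helper74.SP.numeric2 hm' hs1 hsx (by omega) ht1
    · have h1 : 16 * s * D = 4 * (4 * s * D) := by ring
      have h2 : 4 * s * D ≤ 6 * s * D := Nat.mul_le_mul_right _ (Nat.mul_le_mul_right _ (by norm_num))
      omega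
    intro β l r0 Nw hβ hl1 hl hbk hr0 hr01 hNw hNw'
    have hmb := main_bound' (k := 2 * k) (t := t) (x := x) hn3 h3m hβ ht1 hl1 hl hs1 (by omega)
      (by omega) ht2 hr0 hr01 hNw (hNw'.trans (by omega)) (by
        have h5 : D + m ≤ 2 * n ^ 3 := by
          have h6 : m ≤ n ^ 3 := by
            calc m ≤ n := by omega
              _ ≤ n ^ 3 := Nat.le_self_pow (by omega) _
          omega
        calc 192 * ((D + m) * W * (2 * k)) ≤ 192 * (2 * n ^ 3 * W * (2 * k)) :=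
              Nat.mul_le_mul_left _ (Nat.mul_le_mul_right _ (Nat.mul_le_mul_right _ h5))
          _ = 64 * (n ^ 3 * W) * (12 * k) := by ring
          _ ≤ 64 * (n ^ 3 * W) * n := Nat.mul_le_mul_left _ hkn
          _ = 64 * (n ^ 4 * W) := by ring
          _ ≤ 128 * (n ^ 4 * W) := Nat.mul_le_mul_right _ (by norm_num)
          _ = 2 ^ 7 * n ^ 4 * W := by ring
          _ ≤ 2 ^ x := hx)
      ha hd hs hK hN hN2 hM hM1 hsz hD A hA hAK
    have h1 : 192 * x * Nw = 4 * (48 * x * Nw) := by ring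
    have h2 : 48 * x * Nw ≤ 72 * x * Nw :=
      Nat.mul_le_mul_right _ (Nat.mul_le_mul_right _ (by norm_num))
    omega
  have hexp : 3 - 2 / ((2 * k : ℕ) : ℝ) = 3 - 1 / (k : ℝ) := by
    push_cast
    have : (k : ℝ) ≠ 0 := by positivity
    field_simp
  rw [hexp] at hnum
  -- conclusion
  have h1 : (n : ℝ) ^ (3 - 1 / (k : ℝ)) ≤ (11 * (m' : ℝ)) ^ (3 - 1 / (k : ℝ)) := by
    apply Real.rpow_le_rpow (by linarith) _ hexp0
    exact_mod_cast hn11
  have h2 : (11 * (m' : ℝ)) ^ (3 - 1 / (k : ℝ)) ≤ 1331 * (m' : ℝ) ^ (3 - 1 / (k : ℝ)) := by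
    rw [Real.mul_rpow (by norm_num) (by linarith)]
    apply mul_le_mul_of_nonneg_right _ (by positivity)
    calc (11 : ℝ) ^ (3 - 1 / (k : ℝ)) ≤ (11 : ℝ) ^ (3 : ℝ) :=
          Real.rpow_le_rpow_of_exponent_le (by norm_num) hexp3
      _ = 1331 := by norm_num
  have h3 : (7986 : ℝ) ≤ 90 ^ (2 * k) := by
    calc (7986 : ℝ) ≤ 90 ^ 2 := by norm_num
      _ ≤ 90 ^ (2 * k) := pow_le_pow_right₀ (by norm_num) (by omega)
  have hsxD : 0 ≤ (s : ℝ) * x * D := by positivity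
  have h4 : (120 * (t : ℝ)) ^ (2 * k) ≤ (240 * Real.logb 2 n) ^ (2 * k) := by
    apply pow_le_pow_left₀ (by positivity)
    linarith
  calc (n : ℝ) ^ (3 - 1 / (k : ℝ)) ≤ 1331 * (m' : ℝ) ^ (3 - 1 / (k : ℝ)) := h1.trans h2
    _ ≤ 1331 * (6 * (120 * (t : ℝ)) ^ (2 * k) * s * x * D) :=
        mul_le_mul_of_nonneg_left hnum (by norm_num)
    _ = 7986 * (120 * (t : ℝ)) ^ (2 * k) * (s * x * D) := by ring
    _ ≤ 90 ^ (2 * k) * (240 * Real.logb 2 n) ^ (2 * k) * (s * x * D) := by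
        apply mul_le_mul_of_nonneg_right _ hsxD
        exact mul_le_mul h3 h4 (by positivity) (by positivity)
    _ = (90 * (240 * Real.logb 2 n)) ^ (2 * k) * (s * x * D) := by rw [mul_pow 90]
    _ ≤ (2 ^ 15 * Real.logb 2 n) ^ (2 * k) * (s * x * D) := by
        apply mul_le_mul_of_nonneg_right _ hsxD
        apply pow_le_pow_left₀ (by positivity)
        nlinarith
    _ = (2 ^ 15 * Real.logb 2 n) ^ (2 * k) * s * x * D := by ring

end Pool.Agent.Helper8.PQ
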