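import Pool.Agent.Helper8.PQ.Defs
import Pool.Agent.Helper21.DS.InstA
import Pool.Agent.Helper21.DS.InstB
import Pool.Agent.Helper21.DS.InstC

set_option autoImplicit false

/-!
# Mates
-/

namespace Pool.Agent.Helper8.PQ

open Finset
open Pool.Agent.Helper22.ETModel Pool.Agent.Helper22.TSModel Pool.Agent.Helper22.EP
open Pool.Agent.Helper23.SP (pre sg)
open Pool.Agent.Helper8.ZT (pev covp LineOK)
open Pool.Agent.Helper21.DS (mt strc)

variable {m n k b M N : ℕ} [NeZero b]

/-- The background of the earlier construction with trivial sizes. -/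
private def mateEquiv (m k b M N : ℕ) :
    ((E m → Fin k → Fin b) × Pool.Agent.Helper21.DS.Lam m k b 1 M N) ≃
      ((E m → Fin k → Fin b) × Bg m k b M N) where
  toFun ω := (ω.1, (fun x => (ω.2.1 x).1, ω.2.2.1, ω.2.2.2))
  invFun ω := (ω.1, (fun x => (ω.2.1 x, 0), ω.2.2.1, ω.2.2.2))
  left_inv ω := by
    refine Prod.ext rfl (Prod.ext (funext fun x => Prod.ext rfl ?_) rfl)
    exact Subsingleton.elim _ _
  right_inv _ := rfl

open Classical in
/-- The element `(0, i, j)` is often not deleted and has a mate that is not deleted (as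
`Pool.Agent.Helper21.DS.mate_prob`). -/
theorem mate_prob (hb : 2 * b ^ k ≤ m) (i j : Fin m) :
    Fintype.card ((E m → Fin k → Fin b) × Bg m k b M N) ≤
      4 * (univ.filter fun ω : (E m → Fin k → Fin b) × Bg m k b M N =>
        ω.2.1 (0, i, j) = false ∧ ∃ l : Fin m, ω.2.1 (1, j, l) = false ∧
          ω.1 (1, j, l) = ω.1 (0, i, j)).card := by
  have h := Pool.Agent.Helper21.DS.mate_prob (k := k) (b := b) (Z := 1) (M := M) (N := N) hb i j
  rw [Fintype.card_congr (mateEquiv m k b M N)] at h
  refine h.trans (Nat.mul_le_mul_left 4 (le_of_eq ?_))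
  refine Finset.card_equiv (mateEquiv m k b M N) fun ω => ?_
  simp [mateEquiv]

end Pool.Agent.Helper8.PQ
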