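import Pool.Agent.Helper8.PQ.Trans
import Pool.Agent.Helper8.PQ.Proc
import Pool.Agent.Helper21.DS.Win

set_option autoImplicit false

/-!
# The bound before the choice of the parameters
-/

namespace Pool.Agent.Helper8.PQ

open Finset
open Pool.Agent.Helper22.ETModel Pool.Agent.Helper22.TSModel Pool.Agent.Helper22.EP
open Pool.Agent.Helper23.SP (pre sg)
open Pool.Agent.Helper8.ZT (pev covp LineOK)
open Pool.Agent.Helper21.DS (mt DProc strc cove rev_mono rev_mul_card rev_card_le window_main)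

variable {m n k M N d a D W R K c : ℕ}

/-- The main bound: windows of length `l β ^ (k - r0)`. -/
theorem main_bound {β l r0 Nw t1 t s x L Y Q H : ℕ} {Λ : ℝ} (h : 3 * m ≤ n) (hβ : 1 ≤ β)
    (ht : 1 ≤ t) (hl1 : 1 ≤ l) (hl : s * l ≤ x) (hs1 : 1 ≤ s) (hk : 1 ≤ k)
    (hbk : 2 * (60 * β * t) ^ k ≤ m) (hmt : m ≤ 2 ^ t) (hr0 : r0 ≤ k)
    (hr01 : 20 * x * β ≤ (60 * β * t) ^ r0)
    (hNw : D ≤ Nw * (l * β ^ (k - r0))) (hNw' : Nw * (l * β ^ (k - r0)) ≤ D + m)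
    (hx : 192 * ((D + m) * W * k) ≤ 2 ^ x)
    (ha : 2 * a ≤ s) (hd : 1 ≤ d) (hs : 2 * d * t1 ≤ s)
    (hK : 256 * K ≤ 2 ^ t1) (hN : 256 * K * d ^ 2 ≤ N + 1) (hM : 256 * K * (3 * s * d) ≤ M)
    (hL : 2 * N + 2 ≤ L) (hY : M ≤ Y) (hM1 : 1 ≤ M) (hH : (3 * m ^ 2 + 1) ^ d ≤ H)
    (hΛ : (acC d : ℝ) * H * (L * (Y : ℝ) ^ k) ≤ Λ)
    (hQ : 2 * (acC d : ℝ) * H * Λ ^ d ≤ Q) (hQ1 : 1 ≤ Q)
    (h4 : 256 * ((1 + m ^ 3) * (D * (3 * m ^ 2 * ((2 * d * K + 1) * a)))) ≤ N + 1)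
    (hLe : Even L) (hQe : Even Q) (hLQ : L * Y ^ k ≤ Q) (hQn : Q * (N + 1) ≤ n ^ c)
    (A : Alg n D W R (PolQ n d a) SignType) (hA : DecidesC A (polFam n d a) c)
    (hAK : FewSigns A K) :
    m ^ 2 ≤ 192 * x * Nw := by
  classical
  obtain ⟨b, hb⟩ : ∃ b, b = 60 * β * t := ⟨_, rfl⟩
  have hb1 : 1 ≤ b := by
    rw [hb]; exact Nat.mul_pos (Nat.mul_pos (by omega) hβ) ht
  have : NeZero b := ⟨by omega⟩
  rw [← hb] at hbk hr01
  have hbk1 : 1 ≤ b ^ k := Nat.pow_pos hb1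
  have hm : 1 ≤ m := by omega
  have hx1 : 1 ≤ x := le_trans (Nat.mul_pos hs1 hl1) hl
  have h2s : 0 < 2 ^ x := by positivity
  have key := transferP (k := k) (b := b) (M := M) (N := N) h hm hbk hd hs hK hN hM hL hY
    (hM1.trans hY) hH hΛ hQ hQ1 h4 hLe hQe hLQ hQn A hA hAK
  obtain ⟨Dg, hDg⟩ : ∃ c, c = Fintype.card (E m → Fin k → Fin b) := ⟨_, rfl⟩
  obtain ⟨Lm, hLm⟩ : ∃ c, c = Fintype.card (Bg m k b M N) := ⟨_, rfl⟩
  have hDgpos : 0 < Dg := by
    rw [hDg]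
    exact Fintype.card_pos_iff.2 ⟨fun _ _ => 0⟩
  have hLmpos : 0 < Lm := by
    rw [hLm]
    exact Fintype.card_pos_iff.2
      ⟨(fun _ => false, fun _ _ => ⟨0, by omega⟩, fun _ => 0)⟩
  -- one background and one random string
  have hone : ∀ (lam : Bg m k b M N) (ρ : Fin R → Bool),
      96 * ∑ dg : E m → Fin k → Fin b, (rvP A h s L Y Q Λ (dg, lam) ρ).card ≤
      Dg * (576 * (x * Nw) + m ^ 2) := by
    intro lam ρ
    obtain ⟨Bad, hBad, hgood⟩ := window_main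
      (procP (k := k) (b := b) A h s L Y Q Λ lam ρ) (procP_ok A h ha L Y Q Λ lam ρ)
      (x := x) (β := β) (t := t) (l := l) (T := D + m) (r0 := r0) hx1 hβ ht hl hb
      (hbk.trans hmt) hr0 hr01
    rw [← hDg] at hBad
    have hBad96 : 96 * Bad.card ≤ Dg := by
      apply Nat.le_of_mul_le_mul_right _ h2s
      calc 96 * Bad.card * 2 ^ x = 96 * (Bad.card * 2 ^ x) := by ring
        _ ≤ 96 * (2 * (D + m) * W * k * Dg) := Nat.mul_le_mul_left _ hBad
        _ = 192 * ((D + m) * W * k) * Dg := by ring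
        _ ≤ 2 ^ x * Dg := Nat.mul_le_mul_right _ hx
        _ = Dg * 2 ^ x := by ring
    have hcard : ∀ dg : E m → Fin k → Fin b, (rvP A h s L Y Q Λ (dg, lam) ρ).card ≤
        6 * x * Nw + (if dg ∈ Bad then m ^ 2 else 0) := by
      intro dg
      by_cases hω : dg ∈ Bad
      · rw [if_pos hω]
        exact (rvP_card_le' A h s L Y Q Λ (dg, lam) ρ).trans (Nat.le_add_left _ _)
      · rw [if_neg hω, Nat.add_zero]
        refine (rvP_card_le A h s L Y Q Λ (dg, lam) ρ).trans ?_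
        refine (card_le_card (rev_mono _ dg 0 _ hNw le_rfl)).trans ?_
        have := rev_mul_card (procP (k := k) (b := b) A h s L Y Q Λ lam ρ) dg 0
          (A.init (flagOf h) ρ) Nw (l * β ^ (k - r0)) k (6 * x) (by
            intro j hj
            apply hgood dg hω
            have h3 : (j + 1) * (l * β ^ (k - r0)) ≤ Nw * (l * β ^ (k - r0)) :=
              Nat.mul_le_mul_right _ hj
            have h4 : (j + 1) * (l * β ^ (k - r0)) =
              j * (l * β ^ (k - r0)) + l * β ^ (k - r0) := by ring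
            omega)
        calc _ ≤ Nw * (6 * x) := this
          _ = 6 * x * Nw := by ring
    have hsum : ∑ dg : E m → Fin k → Fin b, (rvP A h s L Y Q Λ (dg, lam) ρ).card ≤
        Dg * (6 * x * Nw) + Bad.card * m ^ 2 := by
      refine (sum_le_sum (fun dg _ => hcard dg)).trans ?_
      rw [sum_add_distrib, sum_const, card_univ, smul_eq_mul, Finset.sum_ite_mem, univ_inter,
        sum_const, smul_eq_mul, hDg]
    calc 96 * ∑ dg : E m → Fin k → Fin b, (rvP A h s L Y Q Λ (dg, lam) ρ).card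
        ≤ 96 * (Dg * (6 * x * Nw) + Bad.card * m ^ 2) := Nat.mul_le_mul_left _ hsum
      _ = Dg * (576 * (x * Nw)) + (96 * Bad.card) * m ^ 2 := by ring
      _ ≤ Dg * (576 * (x * Nw)) + Dg * m ^ 2 :=
          Nat.add_le_add_left (Nat.mul_le_mul_right _ hBad96) _
      _ = Dg * (576 * (x * Nw) + m ^ 2) := by ring
  have hpos : 0 < 2 ^ R * (Dg * Lm) :=
    Nat.mul_pos (by positivity) (Nat.mul_pos hDgpos hLmpos)
  have hcardprod : Fintype.card ((E m → Fin k → Fin b) × Bg m k b M N) = Dg * Lm := by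
    rw [Fintype.card_prod, hDg, hLm]
  rw [hcardprod] at key
  have htot : 6 * m ^ 2 * (2 ^ R * (Dg * Lm)) ≤
      (576 * (x * Nw) + m ^ 2) * (2 ^ R * (Dg * Lm)) := by
    calc 6 * m ^ 2 * (2 ^ R * (Dg * Lm)) = 6 * (m ^ 2 * 2 ^ R * (Dg * Lm)) := by ring
      _ ≤ 6 * (16 * ∑ ω : (E m → Fin k → Fin b) × Bg m k b M N, ∑ ρ : Fin R → Bool,
            (rvP A h s L Y Q Λ ω ρ).card) := Nat.mul_le_mul_left _ key
      _ = 96 * ∑ ω : (E m → Fin k → Fin b) × Bg m k b M N, ∑ ρ : Fin R → Bool,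
            (rvP A h s L Y Q Λ ω ρ).card := by ring
      _ = ∑ ρ : Fin R → Bool, ∑ lam : Bg m k b M N,
            96 * ∑ dg : E m → Fin k → Fin b, (rvP A h s L Y Q Λ (dg, lam) ρ).card := by
          rw [sum_comm, mul_sum]
          apply sum_congr rfl
          intro ρ _
          rw [Fintype.sum_prod_type_right, mul_sum]
      _ ≤ ∑ _ρ : Fin R → Bool, ∑ _lam : Bg m k b M N, Dg * (576 * (x * Nw) + m ^ 2) :=
          sum_le_sum (fun ρ _ => sum_le_sum (fun lam _ => hone lam ρ))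
      _ = (576 * (x * Nw) + m ^ 2) * (2 ^ R * (Dg * Lm)) := by
          rw [sum_const, sum_const, card_univ, card_univ, Fintype.card_fun, Fintype.card_bool,
            Fintype.card_fin, smul_eq_mul, smul_eq_mul, ← hLm]
          ring
  have h6 := Nat.le_of_mul_le_mul_right htot hpos
  have h7 : 192 * x * Nw = 192 * (x * Nw) := by ring
  rw [h7]
  omega

/-- The quadratic bound: with one digit per element (`b = 1`) every step reveals at most `s`
elements. -/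
theorem trivial_bound {t1 s L Y Q H : ℕ} {Λ : ℝ} (h : 3 * m ≤ n) (hm : 2 ≤ m) (hk : 1 ≤ k)
    (ha : 2 * a ≤ s) (hd : 1 ≤ d) (hs : 2 * d * t1 ≤ s)
    (hK : 256 * K ≤ 2 ^ t1) (hN : 256 * K * d ^ 2 ≤ N + 1) (hM : 256 * K * (3 * s * d) ≤ M)
    (hL : 2 * N + 2 ≤ L) (hY : M ≤ Y) (hM1 : 1 ≤ M) (hH : (3 * m ^ 2 + 1) ^ d ≤ H)
    (hΛ : (acC d : ℝ) * H * (L * (Y : ℝ) ^ k) ≤ Λ)
    (hQ : 2 * (acC d : ℝ) * H * Λ ^ d ≤ Q) (hQ1 : 1 ≤ Q)
    (h4 : 256 * ((1 + m ^ 3) * (D * (3 * m ^ 2 * ((2 * d * K + 1) * a)))) ≤ N + 1)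
    (hLe : Even L) (hQe : Even Q) (hLQ : L * Y ^ k ≤ Q) (hQn : Q * (N + 1) ≤ n ^ c)
    (A : Alg n D W R (PolQ n d a) SignType) (hA : DecidesC A (polFam n d a) c)
    (hAK : FewSigns A K) :
    m ^ 2 ≤ 16 * s * D := by
  classical
  have key := transferP (k := k) (b := 1) (M := M) (N := N) h (by omega) (by simpa using hm)
    hd hs hK hN hM hL hY (hM1.trans hY) hH hΛ hQ hQ1 h4 hLe hQe hLQ hQn A hA hAK
  set T := Fintype.card ((E m → Fin k → Fin 1) × Bg m k 1 M N) with hT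
  have hpos : 0 < 2 ^ R * T := by
    apply Nat.mul_pos (by positivity)
    rw [hT]
    exact Fintype.card_pos_iff.2
      ⟨(fun _ _ => 0, fun _ => false, fun _ _ => ⟨0, by omega⟩, fun _ => 0)⟩
  have hle : ∀ (ω : (E m → Fin k → Fin 1) × Bg m k 1 M N) (ρ : Fin R → Bool),
      (rvP A h s L Y Q Λ ω ρ).card ≤ s * D := fun ω ρ =>
    (rvP_card_le A h s L Y Q Λ ω ρ).trans
      (rev_card_le (procP_ok A h ha L Y Q Λ ω.2 ρ) ω.1 0 _ D k)
  have h2 : m ^ 2 * (2 ^ R * T) ≤ (16 * s * D) * (2 ^ R * T) := by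
    calc m ^ 2 * (2 ^ R * T) = m ^ 2 * 2 ^ R * T := by ring
      _ ≤ 16 * ∑ ω : (E m → Fin k → Fin 1) × Bg m k 1 M N, ∑ ρ : Fin R → Bool,
            (rvP A h s L Y Q Λ ω ρ).card := key
      _ ≤ 16 * ∑ _ω : (E m → Fin k → Fin 1) × Bg m k 1 M N, ∑ _ρ : Fin R → Bool, s * D :=
          Nat.mul_le_mul_left _ (sum_le_sum fun ω _ => sum_le_sum fun ρ _ => hle ω ρ)
      _ = (16 * s * D) * (2 ^ R * T) := by
          rw [sum_const, sum_const, card_univ, card_univ, Fintype.card_fun, Fintype.card_bool,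
            Fintype.card_fin, smul_eq_mul, smul_eq_mul, ← hT]
          ring
  exact Nat.le_of_mul_le_mul_right h2 hpos

end Pool.Agent.Helper8.PQ
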