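import Pool.Agent.Helper8.PQ.BadP
import Pool.Agent.Helper8.PQ.Run
import Pool.Agent.Helper8.PQ.InstM
import Pool.Agent.Helper21.DS.Trans

set_option autoImplicit false

/-!
# The average number of revealed elements
-/

namespace Pool.Agent.Helper8.PQ

open Finset
open Pool.Agent.Helper22.ETModel Pool.Agent.Helper22.TSModel Pool.Agent.Helper22.EP
open Pool.Agent.Helper23.SP (pre sg)
open Pool.Agent.Helper8.ZT (pev covp LineOK)
open Pool.Agent.Helper21.DS (mt DProc strc cove averaging)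

variable {m n k b M N d a D W R K c : ℕ} [NeZero b]

open Classical in
/-- The revealed elements of type `0`. -/
noncomputable def rvP (A : Alg n D W R (PolQ n d a) SignType) (h : 3 * m ≤ n) (s L Y Q : ℕ)
    (Λ : ℝ) (ω : (E m → Fin k → Fin b) × Bg m k b M N) (ρ : Fin R → Bool) :
    Finset (Fin m × Fin m) :=
  univ.filter (fun p => ((0, p.1, p.2) : E m) ∈
    (procP A h s L Y Q Λ ω.2 ρ).rev ω.1 0 (A.init (flagOf h) ρ) D k)

lemma rvP_card_le (A : Alg n D W R (PolQ n d a) SignType) (h : 3 * m ≤ n) (s L Y Q : ℕ)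
    (Λ : ℝ) (ω : (E m → Fin k → Fin b) × Bg m k b M N) (ρ : Fin R → Bool) :
    (rvP A h s L Y Q Λ ω ρ).card ≤
      ((procP A h s L Y Q Λ ω.2 ρ).rev ω.1 0 (A.init (flagOf h) ρ) D k).card := by
  classical
  apply card_le_card_of_injOn (fun p => ((0, p.1, p.2) : E m))
  · intro p hp
    rw [mem_coe, rvP, mem_filter] at hp
    exact hp.2
  · intro p _ p' _ hpp
    simp only [Prod.mk.injEq, true_and] at hpp
    exact Prod.ext hpp.1 hpp.2

lemma rvP_card_le' (A : Alg n D W R (PolQ n d a) SignType) (h : 3 * m ≤ n) (s L Y Q : ℕ)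
    (Λ : ℝ) (ω : (E m → Fin k → Fin b) × Bg m k b M N) (ρ : Fin R → Bool) :
    (rvP A h s L Y Q Λ ω ρ).card ≤ m ^ 2 := by
  classical
  refine (card_le_univ _).trans ?_
  rw [Fintype.card_prod, Fintype.card_fin, sq]

/-- The element `(0, i, j)` has a mate and both are not deleted. -/
private def trMt (m k b M N : ℕ) (p : Fin m × Fin m)
    (ω : (E m → Fin k → Fin b) × Bg m k b M N) : Prop :=
  ω.2.1 (0, p.1, p.2) = false ∧ ∃ l : Fin m, ω.2.1 (1, p.2, l) = false ∧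
    ω.1 (1, p.2, l) = ω.1 (0, p.1, p.2)

open Classical in
/-- A mate. -/
private noncomputable def trL (p : Fin m × Fin m)
    (ω : (E m → Fin k → Fin b) × Bg m k b M N) : Fin m :=
  if hM : trMt m k b M N p ω then Classical.choose hM.2 else p.1

omit [NeZero b] in
private theorem trL_spec {p : Fin m × Fin m}
    {ω : (E m → Fin k → Fin b) × Bg m k b M N} (hM : trMt m k b M N p ω) :
    ω.2.1 (1, p.2, trL p ω) = false ∧ ω.1 (1, p.2, trL p ω) = ω.1 (0, p.1, p.2) := by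
  unfold trL
  rw [dif_pos hM]
  exact Classical.choose_spec hM.2

/-- The list of polynomials may be taken of bounded degree. -/
lemma list_deg {A : Alg n D W R (PolQ n d a) SignType} (hK : FewSigns A K)
    (fl : Fin n → Fin n → Bool) (ρ : Fin R → Bool) :
    ∃ F : Fin K → MvPolynomial (Fin n × Fin n) ℝ, (∀ i, (F i).totalDegree ≤ d) ∧
      ∀ t < D, ∀ v f hf, A.ask fl ρ t v = .sign f hf → ∃ i, F i = f := by
  classical
  obtain ⟨F, hF⟩ := hK fl ρ
  refine ⟨fun i => if (F i).totalDegree ≤ d then F i else 0, fun i => ?_, ?_⟩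
  · simp only
    split_ifs with h1
    · exact h1
    · rw [MvPolynomial.totalDegree_zero]
      exact Nat.zero_le _
  · intro t ht v f hf hq
    obtain ⟨i, hi⟩ := hF t ht v f hf hq
    refine ⟨i, ?_⟩
    simp only
    rw [hi, if_pos hf]

theorem transferP {t s L Y Q H : ℕ} {Λ : ℝ} (h : 3 * m ≤ n) (hm : 1 ≤ m)
    (hb : 2 * b ^ k ≤ m) (hd : 1 ≤ d) (hs : 2 * d * t ≤ s)
    (hK : 256 * K ≤ 2 ^ t) (hN : 256 * K * d ^ 2 ≤ N + 1) (hM : 256 * K * (3 * s * d) ≤ M)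
    (hL : 2 * N + 2 ≤ L) (hY : M ≤ Y) (hY1 : 1 ≤ Y) (hH : (3 * m ^ 2 + 1) ^ d ≤ H)
    (hΛ : (acC d : ℝ) * H * (L * (Y : ℝ) ^ k) ≤ Λ)
    (hQ : 2 * (acC d : ℝ) * H * Λ ^ d ≤ Q) (hQ1 : 1 ≤ Q)
    (h4 : 256 * ((1 + m ^ 3) * (D * (3 * m ^ 2 * ((2 * d * K + 1) * a)))) ≤ N + 1)
    (hLe : Even L) (hQe : Even Q) (hLQ : L * Y ^ k ≤ Q) (hQn : Q * (N + 1) ≤ n ^ c)
    (A : Alg n D W R (PolQ n d a) SignType) (hA : DecidesC A (polFam n d a) c)
    (hAK : FewSigns A K) :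
    m ^ 2 * 2 ^ R * Fintype.card ((E m → Fin k → Fin b) × Bg m k b M N) ≤
      16 * ∑ ω : (E m → Fin k → Fin b) × Bg m k b M N, ∑ ρ : Fin R → Bool,
        (rvP A h s L Y Q Λ ω ρ).card := by
  classical
  choose F hFd hF using fun ρ => list_deg hAK (flagOf h) ρ
  have key := averaging (Ω := (E m → Fin k → Fin b) × Bg m k b M N) (R := Fin R → Bool)
    (X := Fin m × Fin m)
    (fun ω ρ => A.output (polFam n d a) (ins h (vl L Y Q ω.1 ω.2)) ρ)
    (fun p ω ρ => A.output (polFam n d a)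
      (ins h (plv L Y Q ω.1 ω.2 (0, p.1, p.2) (1, p.2, trL p ω))) ρ)
    (fun p ω => trMt m k b M N p ω)
    (fun ω ρ => rvP A h s L Y Q Λ ω ρ) (fun ρ => BadP A h (F ρ) s L Y Q Λ ρ) ?_ ?_ ?_ ?_ ?_
  · rw [Fintype.card_prod (Fin m) (Fin m), Fintype.card_fin, Fintype.card_fun, Fintype.card_bool,
      Fintype.card_fin, ← sq] at key
    exact key
  · intro ω
    have g1 := hA (ins h (vl L Y Q ω.1 ω.2))
      (ins_valid hm hL hY hQ1 hLQ hQn h ω.1 ω.2)
    rw [Fintype.card_fun, Fintype.card_bool, Fintype.card_fin]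
    refine g1.trans (Nat.mul_le_mul_left _ (card_le_card ?_))
    intro ρ hρ
    rw [mem_filter] at hρ ⊢
    refine ⟨mem_univ _, ?_⟩
    have g2 := base_no h hLe hQe ω.1 ω.2 (Y := Y)
    have g3 : ¬ (A.output (polFam n d a) (ins h (vl L Y Q ω.1 ω.2)) ρ = true) :=
      fun hh => g2 (hρ.2.1 hh)
    simpa using g3
  · rintro p ω hM
    have g1 := hA (ins h (plv L Y Q ω.1 ω.2 (0, p.1, p.2) (1, p.2, trL p ω)))
      (plant_valid hm hL hY hQ1 hLQ hQn h ω.1 ω.2 _ _)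
    rw [Fintype.card_fun, Fintype.card_bool, Fintype.card_fin]
    refine g1.trans (Nat.mul_le_mul_left _ (card_le_card ?_))
    intro ρ hρ
    rw [mem_filter] at hρ ⊢
    exact ⟨mem_univ _, hρ.2.2 (plant_yes h L Y Q ω.1 ω.2 p.1 p.2 (trL p ω))⟩
  · rintro ⟨i, j⟩
    convert mate_prob (M := M) (N := N) hb i j
    rfl
  · rintro ⟨i, j⟩ ω ρ hMt hB hne
    obtain ⟨g4, g5⟩ := trL_spec hMt
    exact mem_filter.2 ⟨mem_univ _, output_plant h A ρ (F ρ) (hF ρ) ω hB i j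
      (trL (i, j) ω) hMt.1 g4 g5 hne⟩
  · intro ρ
    exact badP_card A h (F ρ) (hFd ρ) hd hs hK hN hM hL hY hY1 hH hΛ hQ hQ1 h4 ρ

end Pool.Agent.Helper8.PQ
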